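import Mathlib

/-! Signs and Walsh sums over `ZMod 2`. -/

namespace Q9.KB

open Finset

/-- the sign `(-1)^a` -/
def sg (a : ZMod 2) : ℤ := if a = 0 then 1 else -1

theorem sg_zero : sg 0 = 1 := by simp [sg]
theorem sg_one : sg 1 = -1 := by simp [sg]
theorem sg_add (a b : ZMod 2) : sg (a + b) = sg a * sg b := by
  revert a b; decide
theorem sg_mul_self (a : ZMod 2) : sg a * sg a = 1 := by
  revert a; decide
theorem sg_add_one (a : ZMod 2) : sg (a + 1) = - sg a := by
  revert a; decide
theorem sg_inj {a b : ZMod 2} (h : sg a = sg b) : a = b := by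
  revert a b; decide
theorem sg_sum {ι : Type*} (s : Finset ι) (a : ι → ZMod 2) :
    sg (∑ i ∈ s, a i) = ∏ i ∈ s, sg (a i) := by
  classical
  induction s using Finset.induction_on with
  | empty => simp [sg]
  | insert i s hi ih => rw [sum_insert hi, prod_insert hi, sg_add, ih]
theorem sg_abs (a : ZMod 2) : |sg a| = 1 := by
  revert a; decide
theorem sg_le (a : ZMod 2) : sg a ≤ 1 := by revert a; decide
theorem z2 (a : ZMod 2) : a + a = 0 := by revert a; decide
theorem z2m (a : ZMod 2) : a * a = a := by revert a; decide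
theorem z2n (a : ZMod 2) : - a = a := by revert a; decide
theorem z2c (a : ZMod 2) : a = 0 ∨ a = 1 := by revert a; decide

theorem z2e (c x : ZMod 2) : c + x = 0 → x = c := by revert c x; decide

/-- orthogonality -/
theorem orth {ι : Type*} [Fintype ι] [DecidableEq ι] (t : ι → ZMod 2) :
    ∑ o : ι → ZMod 2, sg (∑ i, t i * o i) =
      if (∀ i, t i = 0) then (2 : ℤ) ^ Fintype.card ι else 0 := by
  simp_rw [sg_sum]
  rw [← Fintype.prod_sum (fun i (a : ZMod 2) => sg (t i * a))]
  have h : ∀ i, ∑ a : ZMod 2, sg (t i * a) = if t i = 0 then 2 else 0 := by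
    intro i
    generalize t i = b
    revert b; decide
  simp_rw [h]
  split_ifs with h0
  · rw [prod_congr rfl (fun i _ => if_pos (h0 i))]; simp
  · push Not at h0
    obtain ⟨i, hi⟩ := h0
    exact prod_eq_zero (mem_univ i) (if_neg hi)

/-- a sum of `2^m` signs equal to `± 2^m` is constant -/
theorem all_eq {α : Type*} [Fintype α] (s : α → ZMod 2) (c : ZMod 2)
    (h : ∑ a, sg (s a) = sg c * Fintype.card α) (a : α) : s a = c := by
  have h1 : ∑ a, (1 - sg c * sg (s a)) = 0 := by
    rw [sum_sub_distrib, ← mul_sum, h, ← mul_assoc, sg_mul_self]; simp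
  have h2 : ∀ a ∈ (univ : Finset α), 0 ≤ 1 - sg c * sg (s a) := by
    intro a _
    rw [← sg_add]
    have := sg_le (c + s a)
    linarith
  have h3 := (sum_eq_zero_iff_of_nonneg h2).1 h1 a (mem_univ a)
  have h4 : sg (c + s a) = sg 0 := by rw [sg_add, sg_zero]; linarith
  exact z2e _ _ (sg_inj h4)

/-- nondegenerate quadratic functions have flat spectrum -/
theorem quad {ι : Type*} [Fintype ι] [DecidableEq ι] (Q : (ι → ZMod 2) → ZMod 2)
    (B : (ι → ZMod 2) → (ι → ZMod 2) → ZMod 2)
    (hQ : ∀ x h, Q (x + h) = Q x + Q h + Q 0 + B h x)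
    (hB : ∀ h x y, B h (x + y) = B h x + B h y)
    (hB0 : ∀ h, (∀ x, B h x = 0) → h = 0) :
    (∑ x, sg (Q x)) ^ 2 = 2 ^ Fintype.card ι := by
  have hor : ∀ h, ∑ x, sg (B h x) = if h = 0 then (2 : ℤ) ^ Fintype.card ι else 0 := by
    intro h
    split_ifs with h0
    · subst h0
      have : ∀ x, B 0 x = 0 := by
        intro x
        have h1 := hQ x 0
        rw [add_zero] at h1
        have : Q x + 0 = Q x + B 0 x := by
          rw [add_zero]
          nth_rewrite 1 [h1]
          rw [add_assoc (Q x), z2, add_zero]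
        exact (add_left_cancel this).symm
      simp [this, sg_zero]
    · have h1 : ¬ ∀ x, B h x = 0 := fun h1 => h0 (hB0 h h1)
      push Not at h1
      obtain ⟨x0, hx0⟩ := h1
      have hx1 : B h x0 = 1 := by
        rcases z2c (B h x0) with h2 | h2
        · exact absurd h2 hx0
        · exact h2
      have h3 : ∑ x, sg (B h x) = ∑ x, sg (B h (x + x0)) :=
        (Equiv.sum_comp (Equiv.addRight x0) (fun x => sg (B h x))).symm
      have h4 : ∑ x, sg (B h (x + x0)) = - ∑ x, sg (B h x) := by
        rw [← sum_neg_distrib]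
        refine sum_congr rfl fun x _ => ?_
        rw [hB, hx1, sg_add_one]
      linarith
  calc (∑ x, sg (Q x)) ^ 2 = ∑ x, ∑ h, sg (Q x) * sg (Q (x + h)) := by
        rw [sq, sum_mul]
        refine sum_congr rfl fun x _ => ?_
        rw [mul_sum]
        exact (Equiv.sum_comp (Equiv.addLeft x) (fun h => sg (Q x) * sg (Q h))).symm
    _ = ∑ h, sg (Q h + Q 0) * ∑ x, sg (B h x) := by
        rw [sum_comm]
        refine sum_congr rfl fun h _ => ?_
        rw [mul_sum]
        refine sum_congr rfl fun x _ => ?_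
        rw [← sg_add, ← sg_add, hQ]
        congr 1
        have := z2 (Q x)
        linear_combination this
    _ = 2 ^ Fintype.card ι := by
        simp_rw [hor]
        rw [sum_eq_single 0]
        · simp [z2, sg_zero]
        · intro h _ hh; simp [hh]
        · simp

end Q9.KB
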