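import Pool.Agent.Q9.KB.A

/-! Functions on a slice with vanishing mixed second differences are affine. -/

namespace Q9.KB

open Finset

variable {α : Type*} [DecidableEq α]

theorem conn {β : Type*} (A : Finset α) (F : Finset α → β) (w : ℕ)
    (h : ∀ Z ⊆ A, ∀ a ∈ A, ∀ b ∈ A, a ∉ Z → b ∉ Z → a ≠ b → Z.card + 1 = w →
      F (insert a Z) = F (insert b Z)) :
    ∀ (k : ℕ) (Y Y' : Finset α), Y ⊆ A → Y' ⊆ A → Y.card = w → Y'.card = w →
      (Y \ Y').card = k → F Y = F Y' := by
  intro k
  induction k with
  | zero =>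
    intro Y Y' hY hY' h1 h2 h3
    have h4 : Y ⊆ Y' := by
      rw [card_eq_zero] at h3
      exact sdiff_eq_empty_iff_subset.1 h3
    rw [eq_of_subset_of_card_le h4 (by omega)]
  | succ k ih =>
    intro Y Y' hY hY' h1 h2 h3
    have h4 : (Y \ Y').Nonempty := by rw [← card_pos]; omega
    obtain ⟨a, ha⟩ := h4
    rw [mem_sdiff] at ha
    have h5 : (Y' \ Y).Nonempty := by
      rw [← card_pos]
      have := card_sdiff_add_card_inter Y Y'
      have := card_sdiff_add_card_inter Y' Y
      rw [inter_comm] at this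
      omega
    obtain ⟨b, hb⟩ := h5
    rw [mem_sdiff] at hb
    have hab : a ≠ b := fun hh => hb.2 (hh ▸ ha.1)
    have e1 : insert a (Y.erase a) = Y := insert_erase ha.1
    have e2 : (insert b (Y.erase a)).card = w := by
      rw [card_insert_of_notMem, card_erase_of_mem ha.1]
      · have : 0 < Y.card := card_pos.2 ⟨a, ha.1⟩
        omega
      · simp [hb.2]
    have e3 : F Y = F (insert b (Y.erase a)) := by
      conv_lhs => rw [← e1]
      refine h (Y.erase a) ((erase_subset _ _).trans hY) a (hY ha.1) b (hY' hb.1)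
        (by simp) (by simp [hb.2]) hab ?_
      rw [card_erase_of_mem ha.1]
      have : 0 < Y.card := card_pos.2 ⟨a, ha.1⟩
      omega
    rw [e3]
    refine ih _ _ ?_ hY' e2 h2 ?_
    · exact insert_subset (hY' hb.1) ((erase_subset _ _).trans hY)
    · have : insert b (Y.erase a) \ Y' = (Y \ Y').erase a := by
        ext x
        simp only [mem_sdiff, mem_insert, mem_erase]
        constructor
        · rintro ⟨h6 | h6, h7⟩
          · exact absurd (h6 ▸ hb.1) h7
          · exact ⟨h6.1, h6.2, h7⟩
        · rintro ⟨h6, h7, h8⟩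
          exact ⟨Or.inr ⟨h6, h7⟩, h8⟩
      rw [this, card_erase_of_mem (mem_sdiff.2 ha)]
      omega

variable [Fintype α]

/-- vanishing mixed differences on the slice of weight `w` make `g` affine there -/
theorem aff (g : Finset α → ZMod 2) (w : ℕ) (hw : 1 ≤ w) (hw2 : w + 2 ≤ Fintype.card α)
    (h : ∀ (Z : Finset α) (a b c d : α), a ∉ Z → b ∉ Z → c ∉ Z → d ∉ Z → a ≠ b → a ≠ c →
      a ≠ d → b ≠ c → b ≠ d → c ≠ d → Z.card + 2 = w →
      g (insert a (insert c Z)) + g (insert b (insert c Z)) =
        g (insert a (insert d Z)) + g (insert b (insert d Z))) :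
    ∃ (c : ZMod 2) (r : α → ZMod 2), ∀ S : Finset α, S.card = w → g S = c + ∑ i ∈ S, r i := by
  classical
  -- the difference in direction `a, b` does not depend on the rest
  have key : ∀ a b : α, a ≠ b → ∀ Z Z' : Finset α, a ∉ Z → b ∉ Z → a ∉ Z' → b ∉ Z' →
      Z.card + 1 = w → Z'.card + 1 = w →
      g (insert a Z) + g (insert b Z) = g (insert a Z') + g (insert b Z') := by
    intro a b hab Z Z' h1 h2 h3 h4 h5 h6
    refine conn (univ \ {a, b}) (fun Z => g (insert a Z) + g (insert b Z)) (w - 1) ?_ _ Z Z'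
      ?_ ?_ (by omega) (by omega) rfl
    · intro X hX c hc d hd hcX hdX hcd hX2
      simp only [mem_sdiff, mem_univ, mem_insert, mem_singleton, true_and, not_or] at hc hd
      have haX : a ∉ X := fun hh => by simpa using hX hh
      have hbX : b ∉ X := fun hh => by simpa using hX hh
      exact h X a b c d haX hbX hcX hdX hab (Ne.symm hc.1) (Ne.symm hd.1) (Ne.symm hc.2)
        (Ne.symm hd.2) hcd (by omega)
    · intro x hx
      simp only [mem_sdiff, mem_univ, mem_insert, mem_singleton, true_and, not_or]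
      exact ⟨fun hh => h1 (hh ▸ hx), fun hh => h2 (hh ▸ hx)⟩
    · intro x hx
      simp only [mem_sdiff, mem_univ, mem_insert, mem_singleton, true_and, not_or]
      exact ⟨fun hh => h3 (hh ▸ hx), fun hh => h4 (hh ▸ hx)⟩
  have ex : ∀ a b : α, ∃ Z : Finset α, a ∉ Z ∧ b ∉ Z ∧ Z.card + 1 = w := by
    intro a b
    have h1 : w - 1 ≤ (univ \ {a, b} : Finset α).card := by
      rw [card_sdiff_of_subset (subset_univ _), card_univ]
      have := card_le_two (a := a) (b := b)
      omega
    obtain ⟨Z, hZ, hZc⟩ := exists_subset_card_eq h1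
    refine ⟨Z, fun hh => by simpa using hZ hh, fun hh => by simpa using hZ hh, by omega⟩
  have hne : Nonempty α := Fintype.card_pos_iff.1 (by omega)
  obtain ⟨o⟩ := hne
  choose Z hZ1 hZ2 hZ3 using ex
  let r : α → ZMod 2 := fun i => if i = o then 0 else g (insert i (Z i o)) + g (insert o (Z i o))
  have hr : ∀ i, i ≠ o → ∀ X : Finset α, i ∉ X → o ∉ X → X.card + 1 = w →
      g (insert i X) + g (insert o X) = r i := by
    intro i hi X h1 h2 h3
    have : r i = g (insert i (Z i o)) + g (insert o (Z i o)) := if_neg hi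
    rw [this]
    exact key i o hi X (Z i o) h1 h2 (hZ1 _ _) (hZ2 _ _) h3 (hZ3 _ _)
  have hro : r o = 0 := if_pos rfl
  have main : ∀ X : Finset α, ∀ a b : α, a ∉ X → b ∉ X → a ≠ b → X.card + 1 = w →
      g (insert a X) + r a = g (insert b X) + r b := by
    intro X a b ha hb hab hX
    by_cases hao : a = o
    · subst hao
      rw [hro, ← hr b (Ne.symm hab) X hb ha hX, add_zero, ← add_assoc, z2, zero_add]
    by_cases hbo : b = o
    · subst hbo
      rw [hro, ← hr a hab X ha hb hX, add_zero, ← add_assoc, z2, zero_add]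
    -- choose a set avoiding `a, b, o`
    have h1 : w - 1 ≤ (univ \ {a, b, o} : Finset α).card := by
      rw [card_sdiff_of_subset (subset_univ _), card_univ]
      have := card_le_three (a := a) (b := b) (c := o)
      omega
    obtain ⟨Y, hY, hYc⟩ := exists_subset_card_eq h1
    have hYa : a ∉ Y := fun hh => by simpa using hY hh
    have hYb : b ∉ Y := fun hh => by simpa using hY hh
    have hYo : o ∉ Y := fun hh => by simpa using hY hh
    have e := key a b hab X Y ha hb hYa hYb hX (by omega)
    have e1 := hr a hao Y hYa hYo (by omega)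
    have e2 := hr b hbo Y hYb hYo (by omega)
    rw [← e1, ← e2]
    generalize g (insert a X) = p1 at *
    generalize g (insert b X) = p2 at *
    generalize g (insert a Y) = p3 at *
    generalize g (insert b Y) = p4 at *
    generalize g (insert o Y) = p5 at *
    clear * - e
    revert e; revert p1 p2 p3 p4 p5; decide
  have hc : ∀ S S' : Finset α, S.card = w → S'.card = w →
      g S + ∑ i ∈ S, r i = g S' + ∑ i ∈ S', r i := by
    intro S S' h1 h2
    refine conn univ (fun S => g S + ∑ i ∈ S, r i) w ?_ _ S S' (subset_univ _) (subset_univ _)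
      h1 h2 rfl
    intro X _ a _ b _ ha hb hab hX
    rw [sum_insert ha, sum_insert hb, ← add_assoc, ← add_assoc, main X a b ha hb hab hX]
  obtain ⟨S0, -, hS0⟩ := exists_subset_card_eq (s := (univ : Finset α)) (n := w)
    (by rw [card_univ]; omega)
  refine ⟨g S0 + ∑ i ∈ S0, r i, r, fun S hS => ?_⟩
  rw [← hc S S0 hS hS0, add_assoc, z2, add_zero]

end Q9.KB
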