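import Pool.Agent.Q9.KB.B

/-! Values of a bent function from its dual on two slices. -/

namespace Q9.KB

open Finset

/-- the Walsh transform -/
def Wh {ι : Type*} [Fintype ι] [DecidableEq ι] (f : (ι → ZMod 2) → ZMod 2) (y : ι → ZMod 2) : ℤ :=
  ∑ x, sg (f x + ∑ i, x i * y i)

variable {κ : Type*} [Fintype κ] [DecidableEq κ]

theorem sum_split (X : (κ ⊕ κ → ZMod 2) → ℤ) :
    ∑ x, X x = ∑ a : κ → ZMod 2, ∑ b : κ → ZMod 2, X (Sum.elim a b) := by
  rw [← Fintype.sum_prod_type' (fun a b => X (Sum.elim a b))]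
  refine (Fintype.sum_equiv (Equiv.sumArrowEquivProdArrow κ κ (ZMod 2)) _ _ ?_)
  intro x
  congr 1
  ext i
  cases i <;> rfl

theorem card_fun : Fintype.card (κ → ZMod 2) = 2 ^ Fintype.card κ := by
  simp

/-- full matching -/
theorem L (F g : (κ ⊕ κ → ZMod 2) → ZMod 2) (r : κ ⊕ κ → ZMod 2) (c : ZMod 2)
    (hW : ∀ y, Wh F y = 2 ^ Fintype.card κ * sg (g y))
    (hg : ∀ o : κ → ZMod 2, g (Sum.elim o (o + 1)) = c + ∑ j, r j * Sum.elim o (o + 1) j)
    (v : κ → ZMod 2) : F (r + Sum.elim v v) = c + ∑ i, v i := by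
  set Y : (κ → ZMod 2) → (κ ⊕ κ → ZMod 2) := fun o => Sum.elim o (o + 1) with hY
  have h1 : ∑ o, sg (∑ j, r j * Y o j) * Wh F (Y o) =
      2 ^ Fintype.card κ * (2 ^ Fintype.card κ * sg c) := by
    have : ∀ o, sg (∑ j, r j * Y o j) * Wh F (Y o) = 2 ^ Fintype.card κ * sg c := by
      intro o
      rw [hW, hg o, sg_add]
      have := sg_mul_self (∑ j, r j * Y o j)
      calc _ = 2 ^ Fintype.card κ * sg c * (sg (∑ j, r j * Y o j) * sg (∑ j, r j * Y o j)) := by
            simp only [hY]; ring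
        _ = _ := by rw [this, mul_one]
    rw [sum_congr rfl (fun o _ => this o)]
    simp
  have h2 : ∑ o, sg (∑ j, r j * Y o j) * Wh F (Y o) =
      ∑ t : κ ⊕ κ → ZMod 2, sg (F (r + t)) * ∑ o, sg (∑ j, t j * Y o j) := by
    simp_rw [Wh, mul_sum]
    rw [sum_comm]
    rw [← Equiv.sum_comp (Equiv.addLeft r)]
    refine sum_congr rfl fun t _ => sum_congr rfl fun o _ => ?_
    simp only [Equiv.coe_addLeft]
    rw [← sg_add, ← sg_add]
    congr 1
    have : ∑ j, (r + t) j * Y o j = ∑ j, r j * Y o j + ∑ j, t j * Y o j := by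
      rw [← sum_add_distrib]
      exact sum_congr rfl fun j _ => by rw [Pi.add_apply, add_mul]
    rw [this]
    have := z2 (∑ j, r j * Y o j)
    linear_combination this
  have h3 : ∀ t : κ ⊕ κ → ZMod 2, ∑ o, sg (∑ j, t j * Y o j) =
      sg (∑ i, t (Sum.inr i)) * if (∀ i, t (Sum.inl i) + t (Sum.inr i) = 0)
        then (2 : ℤ) ^ Fintype.card κ else 0 := by
    intro t
    rw [← orth (fun i => t (Sum.inl i) + t (Sum.inr i)), mul_sum]
    refine sum_congr rfl fun o _ => ?_
    rw [← sg_add, Fintype.sum_sum_type]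
    congr 1
    simp only [hY, Sum.elim_inl, Sum.elim_inr, Pi.add_apply, Pi.one_apply]
    rw [← sum_add_distrib, ← sum_add_distrib]
    exact sum_congr rfl fun i _ => by ring
  rw [h2, sum_split] at h1
  simp_rw [h3, Sum.elim_inl, Sum.elim_inr] at h1
  have h4 : ∀ a b : κ → ZMod 2, (∀ i, a i + b i = 0) ↔ b = a := by
    intro a b
    constructor
    · intro h; funext i; exact z2e _ _ (h i)
    · rintro rfl i; exact z2 _
  simp_rw [h4, mul_ite, mul_zero, sum_ite_eq', mem_univ, if_true] at h1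
  have h5 : ∑ a : κ → ZMod 2, sg (F (r + Sum.elim a a) + ∑ i, a i) =
      sg c * Fintype.card (κ → ZMod 2) := by
    rw [card_fun]
    push_cast
    have h6 : (2 : ℤ) ^ Fintype.card κ ≠ 0 := by positivity
    apply mul_left_cancel₀ h6
    rw [mul_sum, mul_comm (sg c), ← h1]
    exact sum_congr rfl fun a _ => by rw [sg_add]; ring
  have h6 := all_eq (fun a : κ → ZMod 2 => F (r + Sum.elim a a) + ∑ i, a i) c h5 v
  rw [← h6, add_assoc, z2, add_zero]

/-- sign-reversing translation -/
theorem cancel (s : (κ → ZMod 2) → ZMod 2) (i : κ)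
    (h : ∀ v, s (v + Pi.single i 1) = s v + 1) : ∑ v, sg (s v) = 0 := by
  have h1 : ∑ v, sg (s v) = ∑ v : κ → ZMod 2, sg (s (v + Pi.single i 1)) :=
    (Equiv.sum_comp (Equiv.addRight (Pi.single i 1)) (fun v => sg (s v))).symm
  have h2 : ∑ v : κ → ZMod 2, sg (s (v + Pi.single i 1)) = - ∑ v, sg (s v) := by
    rw [← sum_neg_distrib]
    exact sum_congr rfl fun v _ => by rw [h, sg_add_one]
  linarith

/-- near-perfect matching: the sum -/
theorem L1 (F g : (κ ⊕ κ → ZMod 2) → ZMod 2) (r : κ ⊕ κ → ZMod 2) (c : ZMod 2) (i0 : κ)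
    (hW : ∀ y, Wh F y = 2 ^ Fintype.card κ * sg (g y))
    (hg : ∀ o : κ → ZMod 2,
      g (Sum.elim (fun i => if i = i0 then 0 else o i) (fun i => if i = i0 then 0 else o i + 1)) =
        c + ∑ j, r j * Sum.elim (fun i => if i = i0 then 0 else o i)
          (fun i => if i = i0 then 0 else o i + 1) j) :
    ∑ v : κ → ZMod 2, sg (F (r + Sum.elim v v) + ∑ i, if i = i0 then 0 else v i) +
    ∑ v : κ → ZMod 2, sg (F (r + Sum.elim v (v + Pi.single i0 1)) +
      ∑ i, if i = i0 then 0 else v i) = 2 ^ Fintype.card κ * sg c := by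
  set Y : (κ → ZMod 2) → (κ ⊕ κ → ZMod 2) := fun o =>
    Sum.elim (fun i => if i = i0 then 0 else o i) (fun i => if i = i0 then 0 else o i + 1) with hY
  have h1 : ∑ o, sg (∑ j, r j * Y o j) * Wh F (Y o) =
      2 ^ Fintype.card κ * (2 ^ Fintype.card κ * sg c) := by
    have : ∀ o, sg (∑ j, r j * Y o j) * Wh F (Y o) = 2 ^ Fintype.card κ * sg c := by
      intro o
      rw [hW, hg o, sg_add]
      have := sg_mul_self (∑ j, r j * Y o j)
      calc _ = 2 ^ Fintype.card κ * sg c * (sg (∑ j, r j * Y o j) * sg (∑ j, r j * Y o j)) := by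
            simp only [hY]; ring
        _ = _ := by rw [this, mul_one]
    rw [sum_congr rfl (fun o _ => this o)]
    simp
  have h2 : ∑ o, sg (∑ j, r j * Y o j) * Wh F (Y o) =
      ∑ t : κ ⊕ κ → ZMod 2, sg (F (r + t)) * ∑ o, sg (∑ j, t j * Y o j) := by
    simp_rw [Wh, mul_sum]
    rw [sum_comm]
    rw [← Equiv.sum_comp (Equiv.addLeft r)]
    refine sum_congr rfl fun t _ => sum_congr rfl fun o _ => ?_
    simp only [Equiv.coe_addLeft]
    rw [← sg_add, ← sg_add]
    congr 1
    have : ∑ j, (r + t) j * Y o j = ∑ j, r j * Y o j + ∑ j, t j * Y o j := by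
      rw [← sum_add_distrib]
      exact sum_congr rfl fun j _ => by rw [Pi.add_apply, add_mul]
    rw [this]
    have := z2 (∑ j, r j * Y o j)
    linear_combination this
  have h3 : ∀ t : κ ⊕ κ → ZMod 2, ∑ o, sg (∑ j, t j * Y o j) =
      sg (∑ i, if i = i0 then 0 else t (Sum.inr i)) *
        if (∀ i, (if i = i0 then 0 else t (Sum.inl i) + t (Sum.inr i)) = 0)
        then (2 : ℤ) ^ Fintype.card κ else 0 := by
    intro t
    rw [← orth (fun i => if i = i0 then 0 else t (Sum.inl i) + t (Sum.inr i)), mul_sum]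
    refine sum_congr rfl fun o _ => ?_
    rw [← sg_add, Fintype.sum_sum_type]
    congr 1
    simp only [hY, Sum.elim_inl, Sum.elim_inr]
    rw [← sum_add_distrib, ← sum_add_distrib]
    refine sum_congr rfl fun i _ => ?_
    split_ifs <;> ring
  rw [h2, sum_split] at h1
  simp_rw [h3, Sum.elim_inl, Sum.elim_inr] at h1
  have hne : ∀ a : κ → ZMod 2, a ≠ a + Pi.single i0 1 := by
    intro a h
    have := congrFun h i0
    simp at this
  have h4 : ∀ a b : κ → ZMod 2, (∀ i, (if i = i0 then 0 else a i + b i) = 0) ↔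
      (b = a ∨ b = a + Pi.single i0 1) := by
    intro a b
    constructor
    · intro h
      have h' : ∀ i, i ≠ i0 → b i = a i := by
        intro i hi
        have := h i
        rw [if_neg hi] at this
        exact z2e _ _ this
      rcases z2c (a i0 + b i0) with h5 | h5
      · left
        funext i
        by_cases hi : i = i0
        · subst hi; exact z2e _ _ h5
        · exact h' i hi
      · right
        funext i
        by_cases hi : i = i0
        · subst hi
          simp only [Pi.add_apply, Pi.single_eq_same]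
          rw [← h5, ← add_assoc, z2, zero_add]
        · simp [Pi.single_eq_of_ne hi, h' i hi]
    · rintro (rfl | rfl) i
      · split_ifs
        · rfl
        · exact z2 _
      · by_cases hi : i = i0
        · simp [hi]
        · simp only [if_neg hi, Pi.add_apply, Pi.single_eq_of_ne hi, add_zero]
          exact z2 _
  have h5 : ∀ (a : κ → ZMod 2) (X : (κ → ZMod 2) → ℤ),
      ∑ b, X b * (if (∀ i, (if i = i0 then 0 else a i + b i) = 0)
        then (2 : ℤ) ^ Fintype.card κ else 0) =
      X a * 2 ^ Fintype.card κ + X (a + Pi.single i0 1) * 2 ^ Fintype.card κ := by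
    intro a X
    have : ∀ b, X b * (if (∀ i, (if i = i0 then 0 else a i + b i) = 0)
        then (2 : ℤ) ^ Fintype.card κ else 0) =
        (if b = a then X b * 2 ^ Fintype.card κ else 0) +
        (if b = a + Pi.single i0 1 then X b * 2 ^ Fintype.card κ else 0) := by
      intro b
      by_cases hb : b = a
      · rw [if_pos ((h4 a b).2 (Or.inl hb)), if_pos hb, if_neg (hb ▸ hne a), add_zero]
      · by_cases hb2 : b = a + Pi.single i0 1
        · rw [if_pos ((h4 a b).2 (Or.inr hb2)), if_neg hb, if_pos hb2, zero_add]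
        · rw [if_neg (fun h => (not_or.2 ⟨hb, hb2⟩) ((h4 a b).1 h)), if_neg hb, if_neg hb2]
          ring
    simp_rw [this, sum_add_distrib]
    rw [sum_ite_eq', sum_ite_eq']
    simp
  have h6 : ∀ a : κ → ZMod 2, ∑ b : κ → ZMod 2, sg (F (r + Sum.elim a b)) *
      (sg (∑ i, if i = i0 then 0 else b i) *
        if (∀ i, (if i = i0 then 0 else a i + b i) = 0)
        then (2 : ℤ) ^ Fintype.card κ else 0) =
      2 ^ Fintype.card κ * (sg (F (r + Sum.elim a a) + ∑ i, if i = i0 then 0 else a i) +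
      sg (F (r + Sum.elim a (a + Pi.single i0 1)) + ∑ i, if i = i0 then 0 else a i)) := by
    intro a
    have := h5 a (fun b => sg (F (r + Sum.elim a b)) * sg (∑ i, if i = i0 then 0 else b i))
    simp only [mul_assoc] at this ⊢
    rw [this]
    have e : ∑ i, (if i = i0 then 0 else (a + Pi.single i0 1 : κ → ZMod 2) i) =
        ∑ i, if i = i0 then 0 else a i := by
      refine sum_congr rfl fun i _ => ?_
      by_cases hi : i = i0
      · simp [hi]
      · simp [hi, Pi.single_eq_of_ne hi]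
    rw [e, sg_add, sg_add]
    ring
  simp_rw [h6] at h1
  rw [← mul_sum] at h1
  have h7 : (2 : ℤ) ^ Fintype.card κ ≠ 0 := by positivity
  have h8 := mul_left_cancel₀ h7 h1
  rw [sum_add_distrib] at h8
  exact h8

theorem sum_if (v : κ → ZMod 2) (i0 i : κ) :
    ∑ j, (if j = i0 then 0 else (v + Pi.single i 1 : κ → ZMod 2) j) =
      (∑ j, if j = i0 then 0 else v j) + if i = i0 then 0 else 1 := by
  have : ∀ j, (if j = i0 then 0 else (v + Pi.single i 1 : κ → ZMod 2) j) =
      (if j = i0 then 0 else v j) + (if j = i then (if i = i0 then 0 else 1) else 0) := by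
    intro j
    by_cases h1 : j = i0 <;> by_cases h2 : j = i
    · subst h1; subst h2; simp
    · subst h1; simp [h2]
    · subst h2; simp [h1]
    · simp [h1, h2]
  simp_rw [this, sum_add_distrib, sum_ite_eq', mem_univ, if_true]

/-- the known half of the terms cancels -/
theorem K0 (F q : (κ ⊕ κ → ZMod 2) → ZMod 2) (r0 r : κ ⊕ κ → ZMod 2) (c0 : ZMod 2) (i0 : κ)
    (w : ZMod 2) (hF : ∀ x, ∑ j, x j = 0 → F (r0 + x) = c0 + q x)
    (hq : ∀ x y, q (x + y) = q x + q y + (∑ j, x j) * (∑ j, y j) + ∑ j, x j * y j)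
    (hq1 : ∀ j, q (Pi.single j 1) = 0)
    (hw : ∑ j, r0 j + ∑ j, r j + w = 0) :
    ∑ v : κ → ZMod 2, sg (F (r + Sum.elim v (v + Pi.single i0 w)) +
      ∑ i, if i = i0 then 0 else v i) = 0 := by
  set x : (κ → ZMod 2) → (κ ⊕ κ → ZMod 2) := fun v =>
    r0 + (r + Sum.elim v (v + Pi.single i0 w)) with hx
  have hx0 : ∀ v, ∑ j, x v j = 0 := by
    intro v
    simp only [hx, Pi.add_apply, sum_add_distrib, Fintype.sum_sum_type, Sum.elim_inl,
      Sum.elim_inr]
    rw [Fintype.sum_sum_type, Fintype.sum_sum_type] at hw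
    have e1 : ∑ j, (Pi.single i0 w : κ → ZMod 2) j = w := by
      rw [sum_pi_single']; simp
    rw [e1]
    have := z2 (∑ j, v j)
    linear_combination hw + this
  have hxF : ∀ v, F (r + Sum.elim v (v + Pi.single i0 w)) = c0 + q (x v) := by
    intro v
    rw [← hF _ (hx0 v)]
    congr 1
    funext j
    simp only [hx, Pi.add_apply]
    have := z2 (r0 j)
    linear_combination -this
  let d : κ → ZMod 2 := fun i => r0 (Sum.inl i) + r (Sum.inl i) + (r0 (Sum.inr i) + r (Sum.inr i)) +
    (Pi.single i0 w : κ → ZMod 2) i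
  have hd : ∀ v i, x v (Sum.inl i) + x v (Sum.inr i) = d i := by
    intro v i
    simp only [hx, d, Pi.add_apply, Sum.elim_inl, Sum.elim_inr]
    have := z2 (v i)
    linear_combination this
  have hd0 : ∑ i, d i = 0 := by
    have := hx0 0
    rw [Fintype.sum_sum_type, ← sum_add_distrib] at this
    rw [← this]
    exact sum_congr rfl fun i _ => (hd 0 i).symm
  have hxadd : ∀ v i, x (v + Pi.single i 1) = x v + Sum.elim (Pi.single i 1) (Pi.single i 1) := by
    intro v i
    funext j
    rcases j with j | j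
    · simp only [hx, Pi.add_apply, Sum.elim_inl]; ring
    · simp only [hx, Pi.add_apply, Sum.elim_inr]; ring
  have hu : ∀ i, q (Sum.elim (Pi.single i 1) (Pi.single i 1)) = 1 := by
    intro i
    have e1 : (Sum.elim (Pi.single i 1) (Pi.single i 1) : κ ⊕ κ → ZMod 2) =
        Pi.single (Sum.inl i) 1 + Pi.single (Sum.inr i) 1 := by
      funext j
      rcases j with j | j
      · by_cases h : j = i
        · subst h; simp
        · simp [Pi.single_apply, h]
      · by_cases h : j = i
        · subst h; simp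
        · simp [Pi.single_apply, h]
    rw [e1, hq, hq1, hq1]
    simp [Pi.single_apply]
  have hqx : ∀ v i, q (x (v + Pi.single i 1)) = q (x v) + (1 + d i) := by
    intro v i
    rw [hxadd, hq, hu, hx0]
    have e1 : ∑ j, x v j * (Sum.elim (Pi.single i 1) (Pi.single i 1) : κ ⊕ κ → ZMod 2) j = d i := by
      rw [Fintype.sum_sum_type]
      simp only [Sum.elim_inl, Sum.elim_inr, Pi.single_apply, mul_ite, mul_one, mul_zero,
        sum_ite_eq', mem_univ, if_true]
      exact hd v i
    rw [e1]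
    ring
  by_cases h0 : d i0 = 0
  · refine cancel _ i0 fun v => ?_
    rw [hxF, hxF, hqx, h0, sum_if, if_pos rfl]
    ring
  · have h1 : ∃ i, i ≠ i0 ∧ d i ≠ 0 := by
      by_contra hcon
      push Not at hcon
      apply h0
      rw [← hd0]
      exact (sum_eq_single i0 (fun i _ hi => hcon i hi) (by simp)).symm
    obtain ⟨i, hi, hdi⟩ := h1
    have hdi1 : d i = 1 := (z2c (d i)).resolve_left hdi
    refine cancel _ i fun v => ?_
    rw [hxF, hxF, hqx, hdi1, sum_if, if_neg hi]
    have := z2 (1 : ZMod 2)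
    linear_combination this

/-- near-perfect matching -/
theorem L2 (F g q : (κ ⊕ κ → ZMod 2) → ZMod 2) (r0 r : κ ⊕ κ → ZMod 2) (c0 c : ZMod 2) (i0 : κ)
    (hW : ∀ y, Wh F y = 2 ^ Fintype.card κ * sg (g y))
    (hg : ∀ o : κ → ZMod 2,
      g (Sum.elim (fun i => if i = i0 then 0 else o i) (fun i => if i = i0 then 0 else o i + 1)) =
        c + ∑ j, r j * Sum.elim (fun i => if i = i0 then 0 else o i)
          (fun i => if i = i0 then 0 else o i + 1) j)
    (hF : ∀ x, ∑ j, x j = 0 → F (r0 + x) = c0 + q x)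
    (hq : ∀ x y, q (x + y) = q x + q y + (∑ j, x j) * (∑ j, y j) + ∑ j, x j * y j)
    (hq1 : ∀ j, q (Pi.single j 1) = 0) :
    (∑ j, r0 j + ∑ j, r j = 0 → ∀ v : κ → ZMod 2, F (r + Sum.elim v (v + Pi.single i0 1)) =
      c + ∑ i, if i = i0 then 0 else v i) ∧
    (∑ j, r0 j + ∑ j, r j = 1 → ∀ v : κ → ZMod 2, F (r + Sum.elim v v) =
      c + ∑ i, if i = i0 then 0 else v i) := by
  have h := L1 F g r c i0 hW hg
  constructor
  · intro h0 v
    have h1 := K0 F q r0 r c0 i0 0 hF hq hq1 (by rw [h0, add_zero])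
    simp only [Pi.single_zero, add_zero] at h1
    rw [h1, zero_add] at h
    have h2 : ∑ v : κ → ZMod 2, sg (F (r + Sum.elim v (v + Pi.single i0 1)) +
      ∑ i, if i = i0 then 0 else v i) = sg c * Fintype.card (κ → ZMod 2) := by
      rw [h, card_fun]; push_cast; ring
    have h3 := all_eq (fun v : κ → ZMod 2 => F (r + Sum.elim v (v + Pi.single i0 1)) +
      ∑ i, if i = i0 then 0 else v i) c h2 v
    rw [← h3, add_assoc, z2, add_zero]
  · intro h0 v
    have h1 := K0 F q r0 r c0 i0 1 hF hq hq1 (by rw [h0]; decide)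
    rw [h1, add_zero] at h
    have h2 : ∑ v : κ → ZMod 2, sg (F (r + Sum.elim v v) +
      ∑ i, if i = i0 then 0 else v i) = sg c * Fintype.card (κ → ZMod 2) := by
      rw [h, card_fun]; push_cast; ring
    have h3 := all_eq (fun v : κ → ZMod 2 => F (r + Sum.elim v v) +
      ∑ i, if i = i0 then 0 else v i) c h2 v
    rw [← h3, add_assoc, z2, add_zero]

end Q9.KB
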