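import Pool.Agent.Q9.KB.C

/-! From the two slices of the dual to an explicit formula. -/

namespace Q9.KB

open Finset

variable {ι : Type*} [Fintype ι] [LinearOrder ι]

/-- the second elementary symmetric polynomial -/
def q (x : ι → ZMod 2) : ZMod 2 := ∑ i, ∑ j, if i < j then x i * x j else 0

theorem q_add (x y : ι → ZMod 2) :
    q (x + y) = q x + q y + (∑ j, x j) * (∑ j, y j) + ∑ j, x j * y j := by
  have h1 : q (x + y) = q x + q y + (∑ i, ∑ j, (if i < j then x i * y j else 0) +
      ∑ i, ∑ j, (if i < j then y i * x j else 0)) := by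
    simp only [q, ← sum_add_distrib]
    refine sum_congr rfl fun i _ => sum_congr rfl fun j _ => ?_
    split_ifs
    · simp only [Pi.add_apply]; ring
    · ring
  have h2 : ∑ i, ∑ j, (if i < j then y i * x j else 0) =
      ∑ i, ∑ j, (if j < i then x i * y j else 0) := by
    rw [sum_comm]
    refine sum_congr rfl fun i _ => sum_congr rfl fun j _ => ?_
    split_ifs
    · ring
    · rfl
  have h3 : (∑ i, ∑ j, (if i < j then x i * y j else 0) +
      ∑ i, ∑ j, (if j < i then x i * y j else 0)) + ∑ i, ∑ j, (if i = j then x i * y j else 0) =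
      (∑ j, x j) * (∑ j, y j) := by
    rw [sum_mul]
    simp only [mul_sum, ← sum_add_distrib]
    refine sum_congr rfl fun i _ => sum_congr rfl fun j _ => ?_
    rcases lt_trichotomy i j with h | h | h
    · simp [h, h.ne, h.not_gt]
    · subst h; simp
    · simp [h, h.ne', h.not_gt]
  have h4 : ∑ i, ∑ j, (if i = j then x i * y j else 0) = ∑ j, x j * y j := by
    refine sum_congr rfl fun i _ => ?_
    rw [sum_ite_eq]; simp
  rw [h1, h2]
  rw [h4] at h3
  have := z2 (∑ j, x j * y j)
  linear_combination h3 - this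

theorem q_single (j : ι) : q (Pi.single j (1 : ZMod 2)) = 0 := by
  unfold q
  refine sum_eq_zero fun a _ => sum_eq_zero fun b _ => ?_
  split_ifs with h
  · by_cases ha : a = j
    · subst ha
      rw [Pi.single_eq_of_ne (h.ne'), mul_zero]
    · rw [Pi.single_eq_of_ne ha, zero_mul]
  · rfl

/-- the weight -/
def N (y : ι → ZMod 2) : ℕ := ∑ j, if y j = 1 then 1 else 0

variable {κ : Type*} [Fintype κ] [DecidableEq κ]

theorem sum_tr (e : κ ⊕ κ ≃ ι) (φ : ι → ZMod 2) :
    ∑ j, φ j = ∑ p, φ (e p) := (Equiv.sum_comp e φ).symm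

theorem Wh_tr (e : κ ⊕ κ ≃ ι) (f : (ι → ZMod 2) → ZMod 2) (z : κ ⊕ κ → ZMod 2) :
    Wh (fun z : κ ⊕ κ → ZMod 2 => f (z ∘ e.symm)) z = Wh f (z ∘ e.symm) := by
  unfold Wh
  rw [← Equiv.sum_comp (e.arrowCongr (Equiv.refl (ZMod 2)))]
  refine sum_congr rfl fun x _ => ?_
  congr 1
  congr 1
  rw [← Equiv.sum_comp e.symm]
  rfl

theorem wt1 : ∀ a : ZMod 2, ((if a = 1 then 1 else 0 : ℕ) + if a + 1 = 1 then 1 else 0) = 1 := by
  decide

theorem sumif {m : ℕ} (i0 : Fin m) : ∑ i : Fin m, (if i = i0 then 0 else 1) + 1 = m := by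
  have h1 : ∑ i : Fin m, ((if i = i0 then 0 else 1 : ℕ) + if i = i0 then 1 else 0) = m := by
    have : ∀ i : Fin m, ((if i = i0 then 0 else 1 : ℕ) + if i = i0 then 1 else 0) = 1 := by
      intro i; split_ifs <;> rfl
    rw [sum_congr rfl (fun i _ => this i)]
    simp
  rw [sum_add_distrib, sum_ite_eq'] at h1
  simpa using h1

theorem exE (m : ℕ) (hc : Fintype.card ι = 2 * m) (x : ι → ZMod 2) (hx : ∑ j, x j = 0) :
    ∃ e : Fin m ⊕ Fin m ≃ ι, ∀ i, x (e (Sum.inl i)) = x (e (Sum.inr i)) := by
  have h1 : ((Fintype.card {j // x j = 1} : ℕ) : ZMod 2) = 0 := by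
    rw [← hx, Fintype.card_subtype, card_filter]
    push_cast
    refine sum_congr rfl fun j _ => ?_
    rcases z2c (x j) with h | h <;> simp [h]
  rw [ZMod.natCast_eq_zero_iff_even] at h1
  obtain ⟨t, ht⟩ := h1
  have h2 : Fintype.card {j // ¬ x j = 1} = 2 * m - (t + t) := by
    rw [Fintype.card_subtype_compl, hc, ht]
  have h3 : t ≤ m := by
    have := Fintype.card_subtype_le (fun j => x j = 1)
    omega
  obtain ⟨s, hs⟩ : ∃ s, m = t + s := ⟨m - t, by omega⟩
  have h4 : Fintype.card {j // ¬ x j = 1} = s + s := by omega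
  have e1 : Fin t ⊕ Fin t ≃ {j // x j = 1} := Fintype.equivOfCardEq (by simp [ht])
  have e2 : Fin s ⊕ Fin s ≃ {j // ¬ x j = 1} := Fintype.equivOfCardEq (by simp only [h4]; simp)
  have e3 : Fin m ≃ Fin t ⊕ Fin s := (finCongr hs).trans finSumFinEquiv.symm
  refine ⟨(Equiv.sumCongr e3 e3).trans ((Equiv.sumSumSumComm (Fin t) (Fin s) (Fin t) (Fin s)).trans
    ((Equiv.sumCongr e1 e2).trans (Equiv.sumCompl (fun j => x j = 1)))), ?_⟩
  intro i
  simp only [Equiv.trans_apply, Equiv.sumCongr_apply, Sum.map_inl, Sum.map_inr]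
  generalize e3 i = k
  rcases k with k | k
  · change x ((e1 (Sum.inl k)).1) = x ((e1 (Sum.inr k)).1)
    rw [(e1 (Sum.inl k)).2, (e1 (Sum.inr k)).2]
  · change x ((e2 (Sum.inl k)).1) = x ((e2 (Sum.inr k)).1)
    rw [(z2c _).resolve_right (e2 (Sum.inl k)).2, (z2c _).resolve_right (e2 (Sum.inr k)).2]

theorem qpair_u (q : (κ ⊕ κ → ZMod 2) → ZMod 2)
    (hq : ∀ x y, q (x + y) = q x + q y + (∑ j, x j) * (∑ j, y j) + ∑ j, x j * y j)
    (hq1 : ∀ j, q (Pi.single j 1) = 0) (i : κ) :
    q (Sum.elim (Pi.single i 1) (Pi.single i 1)) = 1 := by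
  have e1 : (Sum.elim (Pi.single i 1) (Pi.single i 1) : κ ⊕ κ → ZMod 2) =
      Pi.single (Sum.inl i) 1 + Pi.single (Sum.inr i) 1 := by
    funext j
    rcases j with j | j
    · by_cases h : j = i
      · subst h; simp
      · simp [h]
    · by_cases h : j = i
      · subst h; simp
      · simp [h]
  rw [e1, hq, hq1, hq1]
  simp [Pi.single_apply]

theorem qpair (q : (κ ⊕ κ → ZMod 2) → ZMod 2)
    (hq : ∀ x y, q (x + y) = q x + q y + (∑ j, x j) * (∑ j, y j) + ∑ j, x j * y j)
    (hq1 : ∀ j, q (Pi.single j 1) = 0) (v : κ → ZMod 2) :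
    q (Sum.elim v v) = ∑ i, v i := by
  have h : ∀ s : Finset κ, q (Sum.elim (fun i => if i ∈ s then v i else 0)
      (fun i => if i ∈ s then v i else 0)) = ∑ i ∈ s, v i := by
    intro s
    induction s using Finset.induction_on with
    | empty =>
      have h0 := hq 0 0
      have e0 : (Sum.elim (fun i => if i ∈ (∅ : Finset κ) then v i else 0)
        (fun i => if i ∈ (∅ : Finset κ) then v i else 0) : κ ⊕ κ → ZMod 2) = 0 := by
        funext j; rcases j with j | j <;> simp
      rw [e0, sum_empty]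
      simp only [add_zero, Pi.zero_apply, sum_const_zero, mul_zero] at h0
      rwa [z2] at h0
    | insert i s hi ih =>
      rw [sum_insert hi, ← ih]
      rcases z2c (v i) with hv | hv
      · rw [hv, zero_add]
        congr 1
        have : (fun j => if j ∈ insert i s then v j else 0) = fun j => if j ∈ s then v j else 0 := by
          funext j
          by_cases hj : j = i
          · subst hj; simp [hi, hv]
          · simp [hj]
        rw [this]
      · have : (Sum.elim (fun j => if j ∈ insert i s then v j else 0)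
            (fun j => if j ∈ insert i s then v j else 0) : κ ⊕ κ → ZMod 2) =
            Sum.elim (fun j => if j ∈ s then v j else 0) (fun j => if j ∈ s then v j else 0) +
            Sum.elim (Pi.single i 1) (Pi.single i 1) := by
          funext j
          rcases j with j | j
          · by_cases hj : j = i
            · subst hj; simp [hi, hv]
            · simp [hj]
          · by_cases hj : j = i
            · subst hj; simp [hi, hv]
            · simp [hj]
        rw [this, hq, qpair_u q hq hq1]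
        have e1 : ∑ j, (Sum.elim (fun j => if j ∈ s then v j else 0)
            (fun j => if j ∈ s then v j else 0) : κ ⊕ κ → ZMod 2) j = 0 := by
          rw [Fintype.sum_sum_type]
          simp only [Sum.elim_inl, Sum.elim_inr]
          exact z2 _
        have e2 : ∑ j, (Sum.elim (fun j => if j ∈ s then v j else 0)
            (fun j => if j ∈ s then v j else 0) : κ ⊕ κ → ZMod 2) j *
            (Sum.elim (Pi.single i 1) (Pi.single i 1) : κ ⊕ κ → ZMod 2) j = 0 := by
          rw [Fintype.sum_sum_type]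
          simp [Pi.single_apply, hi]
        rw [e1, e2, hv]
        ring
  have := h univ
  simpa using this

/-- transported data -/
theorem main (m : ℕ) (hm : 2 ≤ m) (hc : Fintype.card ι = 2 * m)
    (f g : (ι → ZMod 2) → ZMod 2) (hW : ∀ y, Wh f y = 2 ^ m * sg (g y))
    (c0 c : ZMod 2) (r0 r : ι → ZMod 2)
    (h0 : ∀ y, N y = m → g y = c0 + ∑ j, r0 j * y j)
    (h1 : ∀ y, N y + 1 = m → g y = c + ∑ j, r j * y j) :
    (∑ j, r0 j + ∑ j, r j = 0) ∧ (∀ x, ∑ j, x j = 0 → f (r0 + x) = c0 + q x) ∧
      (∀ x, ∑ j, x j = 1 → f (r + x) = c + q x) := by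
  have hN : ∀ (e : Fin m ⊕ Fin m ≃ ι) (z : Fin m ⊕ Fin m → ZMod 2),
      N (z ∘ e.symm) = ∑ p, if z p = 1 then 1 else 0 := by
    intro e z
    unfold N
    rw [← Equiv.sum_comp e]
    simp
  -- full matchings
  have hL : ∀ (e : Fin m ⊕ Fin m ≃ ι) (v : Fin m → ZMod 2),
      f ((r0 ∘ e + Sum.elim v v) ∘ e.symm) = c0 + ∑ i, v i := by
    intro e v
    refine L (fun z => f (z ∘ e.symm)) (fun z => g (z ∘ e.symm)) (r0 ∘ e) c0 ?_ ?_ v
    · intro z
      rw [Wh_tr, hW, Fintype.card_fin]
    · intro o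
      rw [h0]
      · rw [sum_tr e]; simp
      · rw [hN, Fintype.sum_sum_type, ← sum_add_distrib]
        have : ∀ i : Fin m, ((if Sum.elim o (o + 1) (Sum.inl i) = 1 then 1 else 0 : ℕ) +
            if Sum.elim o (o + 1) (Sum.inr i) = 1 then 1 else 0) = 1 := fun i => wt1 (o i)
        rw [sum_congr rfl (fun i _ => this i)]
        simp
  let qe : (Fin m ⊕ Fin m ≃ ι) → (Fin m ⊕ Fin m → ZMod 2) → ZMod 2 := fun e z => q (z ∘ e.symm)
  have hqe : ∀ e x y, qe e (x + y) = qe e x + qe e y + (∑ j, x j) * (∑ j, y j) +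
      ∑ j, x j * y j := by
    intro e x y
    have e1 := q_add (x ∘ e.symm) (y ∘ e.symm)
    rw [sum_tr e, sum_tr e, sum_tr e] at e1
    simp only [Function.comp_apply, Equiv.symm_apply_apply] at e1
    exact e1
  have hqe1 : ∀ e j, qe e (Pi.single j 1) = 0 := by
    intro e j
    rw [← q_single (e j)]
    change q _ = q _
    congr 1
    funext k
    obtain ⟨p, rfl⟩ := e.surjective k
    by_cases hp : p = j
    · subst hp; simp
    · simp [hp]
  have hqu : ∀ (e : Fin m ⊕ Fin m ≃ ι) (v : Fin m → ZMod 2),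
      q (Sum.elim v v ∘ e.symm) = ∑ i, v i := fun e v => qpair (qe e) (hqe e) (hqe1 e) v
  have hE : ∀ x, ∑ j, x j = 0 → f (r0 + x) = c0 + q x := by
    intro x hx
    obtain ⟨e, he⟩ := exE m hc x hx
    have e1 : x = Sum.elim (fun i => x (e (Sum.inl i))) (fun i => x (e (Sum.inl i))) ∘ e.symm := by
      funext j
      obtain ⟨p, rfl⟩ := e.surjective j
      rcases p with i | i
      · simp
      · simp [he i]
    have e2 := hL e (fun i => x (e (Sum.inl i)))
    rw [← hqu e, ← e1] at e2
    rw [← e2]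
    congr 1
    funext j
    simp only [Pi.add_apply, Function.comp_apply, Equiv.apply_symm_apply]
    congr 1
    conv_lhs => rw [e1]
    rfl
  -- near-perfect matchings
  have hL2 := fun (e : Fin m ⊕ Fin m ≃ ι) (i0 : Fin m) =>
    L2 (fun z => f (z ∘ e.symm)) (fun z => g (z ∘ e.symm)) (qe e) (r0 ∘ e) (r ∘ e) c0 c i0
      (by
        intro z
        rw [Wh_tr, hW, Fintype.card_fin])
      (by
        intro o
        rw [h1]
        · rw [sum_tr e]; simp
        · rw [hN, Fintype.sum_sum_type, ← sum_add_distrib]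
          have : ∀ i : Fin m, ((if Sum.elim (fun i => if i = i0 then 0 else o i)
              (fun i => if i = i0 then 0 else o i + 1) (Sum.inl i) = 1 then 1 else 0 : ℕ) +
              if Sum.elim (fun i => if i = i0 then 0 else o i)
              (fun i => if i = i0 then 0 else o i + 1) (Sum.inr i) = 1 then 1 else 0) =
              if i = i0 then 0 else 1 := by
            intro i
            by_cases hi : i = i0
            · simp [hi]
            · simp only [Sum.elim_inl, Sum.elim_inr, if_neg hi]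
              exact wt1 (o i)
          rw [sum_congr rfl (fun i _ => this i)]
          exact sumif i0)
      (by
        intro x hx
        have hx' : ∑ j, (x ∘ e.symm) j = 0 := by
          rw [sum_tr e]; simpa using hx
        rw [← hE _ hx']
        congr 1
        funext j
        simp)
      (hqe e) (hqe1 e)
  have hsum : ∀ e : Fin m ⊕ Fin m ≃ ι, ∑ j, (r0 ∘ e) j + ∑ j, (r ∘ e) j = ∑ j, r0 j + ∑ j, r j := by
    intro e
    rw [sum_tr e, sum_tr e]
    rfl
  have hδ : ∑ j, r0 j + ∑ j, r j = 0 := by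
    rcases z2c (∑ j, r0 j + ∑ j, r j) with h | h
    · exact h
    · exfalso
      have e : Fin m ⊕ Fin m ≃ ι := Fintype.equivOfCardEq (by simp [hc]; ring)
      have e0 := (hL2 e ⟨0, by omega⟩).2 (by rw [hsum]; exact h) (Pi.single ⟨0, by omega⟩ 1)
      have e1 := (hL2 e ⟨1, by omega⟩).2 (by rw [hsum]; exact h) (Pi.single ⟨0, by omega⟩ 1)
      rw [e0] at e1
      have e2 := add_left_cancel e1
      have e3 : ∑ i : Fin m, (if i = ⟨0, by omega⟩ then 0 else
          (Pi.single (⟨0, by omega⟩ : Fin m) 1 : Fin m → ZMod 2) i) = 0 := by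
        refine sum_eq_zero fun i _ => ?_
        split_ifs with h
        · rfl
        · rw [Pi.single_eq_of_ne h]
      have e4 : ∑ i : Fin m, (if i = ⟨1, by omega⟩ then 0 else
          (Pi.single (⟨0, by omega⟩ : Fin m) 1 : Fin m → ZMod 2) i) = 1 := by
        rw [sum_eq_single ⟨0, by omega⟩]
        · rw [if_neg (by simp), Pi.single_eq_same]
        · intro i _ h
          rw [Pi.single_eq_of_ne h, ite_self]
        · simp
      rw [e3, e4] at e2
      exact absurd e2 (by decide)
  refine ⟨hδ, hE, ?_⟩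
  intro x hx
  have hne : ∃ p, x p = 1 := by
    by_contra hcon
    push Not at hcon
    have : ∀ j, x j = 0 := fun j => (z2c _).resolve_right (hcon j)
    simp [this] at hx
  obtain ⟨p, hp⟩ := hne
  have hx' : ∑ j, (x + Pi.single p 1 : ι → ZMod 2) j = 0 := by
    simp only [Pi.add_apply, sum_add_distrib, hx]
    rw [sum_pi_single']
    simp only [mem_univ, if_true]
    exact z2 1
  obtain ⟨e, he⟩ := exE m hc _ hx'
  let v : Fin m → ZMod 2 := fun i => x (e (Sum.inl i))
  have h3 : ∃ i0, ∀ i, x (e (Sum.inr i)) = (v + Pi.single i0 1 : Fin m → ZMod 2) i := by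
    obtain ⟨P, rfl⟩ := e.surjective p
    have h4 : ∀ i, x (e (Sum.inr i)) = v i + (Pi.single (e P) 1 : ι → ZMod 2) (e (Sum.inl i)) +
        (Pi.single (e P) 1 : ι → ZMod 2) (e (Sum.inr i)) := by
      intro i
      have := he i
      simp only [Pi.add_apply] at this
      have h5 := z2 ((Pi.single (e P) 1 : ι → ZMod 2) (e (Sum.inr i)))
      simp only [v]
      linear_combination -this - h5
    rcases P with i0 | i0
    · refine ⟨i0, fun i => ?_⟩
      rw [h4 i]
      by_cases hi : i = i0
      · subst hi; simp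
      · simp [hi]
    · refine ⟨i0, fun i => ?_⟩
      rw [h4 i]
      by_cases hi : i = i0
      · subst hi; simp
      · simp [hi]
  obtain ⟨i0, h4⟩ := h3
  have e1 : x = Sum.elim v (v + Pi.single i0 1) ∘ e.symm := by
    funext j
    obtain ⟨P, rfl⟩ := e.surjective j
    rcases P with i | i
    · simp [v]
    · rw [h4 i]; simp
  have e2 := (hL2 e i0).1 (by rw [hsum]; exact hδ) v
  have e3 : f (r + x) = f ((r ∘ e + Sum.elim v (v + Pi.single i0 1)) ∘ e.symm) := by
    congr 1
    funext j
    simp only [Pi.add_apply, Function.comp_apply, Equiv.apply_symm_apply]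
    congr 1
    conv_lhs => rw [e1]
    rfl
  rw [e3]
  have e4 : q x = qe e (Sum.elim v v + Pi.single (Sum.inr i0) 1) := by
    change q x = q _
    congr 1
    rw [e1]
    funext j
    obtain ⟨P, rfl⟩ := e.surjective j
    rcases P with i | i
    · simp
    · by_cases hi : i = i0
      · subst hi; simp
      · simp [hi]
  rw [e4, hqe, hqe1]
  have e5 : qe e (Sum.elim v v) = ∑ i, v i := hqu e v
  have e6 : ∑ j, (Sum.elim v v : Fin m ⊕ Fin m → ZMod 2) j = 0 := by
    rw [Fintype.sum_sum_type]
    exact z2 _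
  have e7 : ∑ j, (Sum.elim v v : Fin m ⊕ Fin m → ZMod 2) j *
      (Pi.single (Sum.inr i0) 1 : Fin m ⊕ Fin m → ZMod 2) j = v i0 := by
    rw [sum_eq_single (Sum.inr i0)]
    · simp
    · intro b _ hb; rw [Pi.single_eq_of_ne hb, mul_zero]
    · simp
  rw [e5, e6, e7]
  have e8 : ∑ i, v i = (∑ i, if i = i0 then 0 else v i) + v i0 := by
    have : v i0 = ∑ i, if i = i0 then v i else 0 := by simp
    conv_rhs => rw [this]
    rw [← sum_add_distrib]
    refine sum_congr rfl fun i _ => ?_
    split_ifs <;> simp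
  rw [e8]
  have e9 := z2 (v i0)
  have e10 : f ((r ∘ e + Sum.elim v (v + Pi.single i0 1)) ∘ e.symm) =
    c + ∑ i, if i = i0 then 0 else v i := e2
  rw [e10]
  linear_combination -e9

end Q9.KB
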