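import Pool.Agent.Q9.KB.D

/-! The definitions of `k`-bent functions, and the explicit functions are `k`-bent. -/

namespace Q9.KB

open Finset

/-- `u_i(x) = x_{2i-1} + x_{2i}` (coordinates numbered from `1`); with coordinates and `i`
numbered from `0` this is `x_{2i} + x_{2i+1}`. -/
def u {m : ℕ} (i : Fin m) (x : Fin (2 * m) → ZMod 2) : ZMod 2 :=
  x ⟨2 * i, by omega⟩ + x ⟨2 * i + 1, by omega⟩

/-- the form `⟨x,y⟩_k` -/
def ip {m : ℕ} (k : ℕ) (x y : Fin (2 * m) → ZMod 2) : ZMod 2 :=
  ∑ i, x i * y i +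
    ∑ i : Fin m, ∑ j : Fin m, if i ≤ j ∧ (j : ℕ) < k then u i x * u j x * u i y * u j y else 0

/-- the `k`-Walsh-Hadamard transform -/
def W {m : ℕ} (k : ℕ) (f : (Fin (2 * m) → ZMod 2) → ZMod 2) (y : Fin (2 * m) → ZMod 2) : ℤ :=
  ∑ x, sg (f x + ip k x y)

/-- `k`-bent functions -/
def KBent {m : ℕ} (k : ℕ) (f : (Fin (2 * m) → ZMod 2) → ZMod 2) : Prop :=
  ∀ π : Equiv.Perm (Fin (2 * m)), ∀ j, 1 ≤ j → j ≤ k → ∀ y,
    W j (fun x => f (fun i => x (π i))) y = 2 ^ m ∨ W j (fun x => f (fun i => x (π i))) y = -2 ^ m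

/-- the explicit class -/
def Explicit {m : ℕ} (f : (Fin (2 * m) → ZMod 2) → ZMod 2) : Prop :=
  ∃ (R : Finset (Fin (2 * m))) (a : Fin (2 * m) → ZMod 2) (c : ZMod 2), Even R.card ∧
    ∀ x, f x = (∑ i, ∑ j, if i < j ∧ (i ∈ R ↔ j ∈ R) then x i * x j else 0) +
      ∑ i, a i * x i + c

/-- the pairs partition the coordinates -/
theorem sum_u {m : ℕ} (x : Fin (2 * m) → ZMod 2) : ∑ i, u i x = ∑ p, x p := by
  rw [← Equiv.sum_comp (finProdFinEquiv.trans (finCongr (mul_comm m 2))), Fintype.sum_prod_type]
  refine sum_congr rfl fun i _ => ?_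
  rw [Fin.sum_univ_two]
  unfold u
  congr 2
  · ext; simp
  · ext; simp [add_comm]

theorem u_add {m : ℕ} (i : Fin m) (x y : Fin (2 * m) → ZMod 2) : u i (x + y) = u i x + u i y := by
  simp only [u, Pi.add_apply]; ring

section

variable {ι : Type*} [Fintype ι] [LinearOrder ι]

theorem polar (x y : ι → ZMod 2) : ∑ i, ∑ j, (if i < j then x i * y j + y i * x j else 0) =
    (∑ j, x j) * (∑ j, y j) + ∑ j, x j * y j := by
  have h := q_add x y
  have h1 : q (x + y) = q x + q y +
      ∑ i, ∑ j, (if i < j then x i * y j + y i * x j else 0) := by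
    simp only [q, ← sum_add_distrib]
    refine sum_congr rfl fun i _ => sum_congr rfl fun j _ => ?_
    split_ifs
    · simp only [Pi.add_apply]; ring
    · ring
  rw [h1] at h
  linear_combination h

/-- the quadratic part in terms of `q` -/
theorem qR (R : Finset ι) (t x : ι → ZMod 2) (ht : ∀ i, t i = if i ∈ R then 1 else 0) :
    (∑ i, ∑ j, if i < j ∧ (i ∈ R ↔ j ∈ R) then x i * x j else 0) =
      q x + (∑ j, x j) * (∑ j, t j * x j) + ∑ j, t j * x j := by
  have h := polar x (fun j => t j * x j)
  have h1 : ∀ j, x j * (t j * x j) = t j * x j := by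
    intro j
    have := z2m (x j)
    linear_combination t j * this
  simp only [h1] at h
  rw [add_assoc, ← h, q, ← sum_add_distrib]
  refine sum_congr rfl fun i _ => ?_
  rw [← sum_add_distrib]
  refine sum_congr rfl fun j _ => ?_
  rw [ht i, ht j]
  by_cases hij : i < j
  · by_cases hi : i ∈ R <;> by_cases hj : j ∈ R
    · simp only [hij, hi, hj]
      have := z2 (x i * x j)
      simp only [if_true, true_and, one_mul]
      linear_combination -this
    · simp only [hij, hi, hj, true_and, if_true, if_false, iff_false, not_true]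
      have := z2 (x i * x j)
      linear_combination -this
    · simp only [hij, hi, hj, true_and, if_true, if_false, iff_true]
      have := z2 (x i * x j)
      linear_combination -this
    · simp [hij, hi, hj]
  · simp [hij]

end

theorem ip_eq {m : ℕ} (k : ℕ) (x y : Fin (2 * m) → ZMod 2) :
    ip k x y = ∑ i, x i * y i +
      (q (fun i : Fin m => (if (i : ℕ) < k then u i y else 0) * u i x) +
        ∑ i : Fin m, (if (i : ℕ) < k then u i y else 0) * u i x) := by
  unfold ip q
  congr 1
  rw [← sum_add_distrib]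
  refine sum_congr rfl fun i _ => ?_
  have h1 : (if (i : ℕ) < k then u i y else 0) * u i x =
      ∑ j, if i = j then (if (i : ℕ) < k then u i y else 0) * u i x else 0 := by
    rw [sum_ite_eq]; simp
  conv_rhs => rw [h1]
  rw [← sum_add_distrib]
  refine sum_congr rfl fun j _ => ?_
  rcases lt_trichotomy i j with h | h | h
  · simp only [h, h.le, true_and, if_true, h.ne, if_false, add_zero]
    by_cases hj : (j : ℕ) < k
    · have hi : (i : ℕ) < k := lt_trans h hj
      simp only [hi, hj, if_true]; ring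
    · simp [hj]
  · subst h
    simp only [le_refl, true_and, lt_irrefl, if_false, zero_add, if_true]
    split_ifs
    · have e1 := z2m (u i x)
      have e2 := z2m (u i y)
      calc u i x * u i x * u i y * u i y = (u i x * u i x) * (u i y * u i y) := by ring
        _ = u i y * u i x := by rw [e1, e2]; ring
    · ring
  · simp [h.not_ge, h.not_gt, h.ne']

theorem back {m : ℕ} (f : (Fin (2 * m) → ZMod 2) → ZMod 2) (hf : Explicit f) (k : ℕ) :
    KBent k f := by
  obtain ⟨R, a, c, hR, hfx⟩ := hf
  intro π j _ _ y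
  set t : Fin (2 * m) → ZMod 2 := fun i => if i ∈ R then 1 else 0 with ht
  have ht0 : ∑ i, t i = 0 := by
    rw [← ZMod.natCast_eq_zero_iff_even] at hR
    rw [← hR]
    simp only [ht, sum_boole]
    congr 2
    ext i; simp
  have hf2 : ∀ x, f x = q x + (∑ j, x j) * (∑ j, t j * x j) + ∑ j, t j * x j +
      ∑ i, a i * x i + c := by
    intro x
    rw [hfx, qR R t x (fun i => rfl)]
  set s : Fin m → ZMod 2 := fun i => if (i : ℕ) < j then u i y else 0 with hs
  set Q : (Fin (2 * m) → ZMod 2) → ZMod 2 := fun x => f (fun i => x (π i)) + ip j x y with hQ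
  set B : (Fin (2 * m) → ZMod 2) → (Fin (2 * m) → ZMod 2) → ZMod 2 := fun h x =>
    (∑ p, x p) * (∑ p, h p) + ∑ p, x p * h p + ((∑ p, x p) * (∑ p, t p * h (π p)) +
      (∑ p, h p) * (∑ p, t p * x (π p))) + ((∑ i, s i * u i x) * (∑ i, s i * u i h) +
      ∑ i, (s i * u i x) * (s i * u i h)) with hB
  have hsumπ : ∀ x : Fin (2 * m) → ZMod 2, ∑ p, x (π p) = ∑ p, x p :=
    fun x => Equiv.sum_comp π x
  have hpol : ∀ x h, Q (x + h) = Q x + Q h + Q 0 + B h x := by
    intro x h
    simp only [hQ, hB, hf2, ip_eq]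
    have e1 := q_add (fun i => x (π i)) (fun i => h (π i))
    have e1' : (fun i => (x + h) (π i)) = (fun i => x (π i)) + (fun i => h (π i)) := by
      funext i; simp
    have e2 := q_add (fun i : Fin m => s i * u i x) (fun i : Fin m => s i * u i h)
    have e2' : (fun i : Fin m => s i * u i (x + h)) =
        (fun i : Fin m => s i * u i x) + (fun i : Fin m => s i * u i h) := by
      funext i; simp only [Pi.add_apply, u_add]; ring
    have e3 : ∑ p, x (π p) * h (π p) = ∑ p, x p * h p :=
      Equiv.sum_comp π (fun p => x p * h p)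
    rw [hsumπ, hsumπ, e3] at e1
    rw [e1', e1]
    have e4 : (fun i : Fin m => (if (i : ℕ) < j then u i y else 0) * u i (x + h)) =
      (fun i : Fin m => s i * u i x) + (fun i : Fin m => s i * u i h) := e2'
    rw [e4, e2]
    simp only [Pi.add_apply, Pi.zero_apply, mul_add, add_mul, sum_add_distrib, mul_zero, zero_mul,
      sum_const_zero, add_zero, zero_add, hsumπ]
    have e5 : ∑ i : Fin m, (if (i : ℕ) < j then u i y else 0) * u i (x + h) =
        ∑ i, s i * u i x + ∑ i, s i * u i h := by
      rw [← sum_add_distrib]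
      exact sum_congr rfl fun i _ => by simp only [u_add, hs]; ring
    have e6 : (q (fun _ : Fin (2 * m) => (0 : ZMod 2))) = 0 := by simp [q]
    have e7 : ∀ i : Fin m, u i (0 : Fin (2 * m) → ZMod 2) = 0 := by intro i; simp [u]
    simp only [e6, e7, mul_zero, sum_const_zero, add_zero, zero_add]
    have e8 : (q (fun _ : Fin m => (0 : ZMod 2))) = 0 := by simp [q]
    simp only [e8, add_zero, zero_add]
    have := z2 c
    simp only [hs]
    linear_combination -this
  have hBadd : ∀ h x z, B h (x + z) = B h x + B h z := by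
    intro h x z
    simp only [hB, u_add, Pi.add_apply, mul_add, add_mul, sum_add_distrib]
    ring
  have hnd : ∀ h, (∀ x, B h x = 0) → h = 0 := by
    intro h hh
    have h1 : ∀ i : Fin m, u i h = u i (fun p => t (π.symm p)) * ∑ p, h p := by
      intro i
      have e := hh (Pi.single ⟨2 * i, by omega⟩ 1 + Pi.single ⟨2 * i + 1, by omega⟩ 1)
      have e0 : ∀ i' : Fin m, u i' (Pi.single ⟨2 * i, by omega⟩ 1 +
          Pi.single ⟨2 * i + 1, by omega⟩ 1 : Fin (2 * m) → ZMod 2) = 0 := by
        intro i'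
        unfold u
        simp only [Pi.add_apply, Pi.single_apply, Fin.mk.injEq]
        by_cases hi : (i' : ℕ) = i
        · rw [hi]; simp; decide
        · have h1 : ¬ (2 * (i' : ℕ) = 2 * i) := by omega
          have h2 : ¬ (2 * (i' : ℕ) = 2 * i + 1) := by omega
          have h3 : ¬ (2 * (i' : ℕ) + 1 = 2 * i) := by omega
          have h4 : ¬ (2 * (i' : ℕ) + 1 = 2 * i + 1) := by omega
          simp [h1, h2, h3, hi]
      have e1 : ∑ p, (Pi.single ⟨2 * i, by omega⟩ 1 +
          Pi.single ⟨2 * i + 1, by omega⟩ 1 : Fin (2 * m) → ZMod 2) p = 0 := by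
        rw [← sum_u]
        exact sum_eq_zero fun i' _ => e0 i'
      have e2 : ∀ φ : Fin (2 * m) → ZMod 2, ∑ p, (Pi.single ⟨2 * i, by omega⟩ 1 +
          Pi.single ⟨2 * i + 1, by omega⟩ 1 : Fin (2 * m) → ZMod 2) p * φ p = u i φ := by
        intro φ
        simp [Pi.single_apply, add_mul, sum_add_distrib, u]
      have e3 : ∑ p, t p * (Pi.single ⟨2 * i, by omega⟩ 1 +
          Pi.single ⟨2 * i + 1, by omega⟩ 1 : Fin (2 * m) → ZMod 2) (π p) =
          u i (fun p => t (π.symm p)) := by
        have e4 := Equiv.sum_comp π (fun p => (Pi.single ⟨2 * i, by omega⟩ 1 +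
          Pi.single ⟨2 * i + 1, by omega⟩ 1 : Fin (2 * m) → ZMod 2) p * t (π.symm p))
        simp only [Equiv.symm_apply_apply] at e4
        rw [← e2, ← e4]
        exact sum_congr rfl fun p _ => mul_comm _ _
      simp only [hB, e0, e1, e2, e3, zero_mul, mul_zero, sum_const_zero, add_zero, zero_add] at e
      have := z2e _ _ ((add_comm _ _).trans e)
      rw [this, mul_comm]
    have hH : ∑ p, h p = 0 := by
      rw [← sum_u, sum_congr rfl (fun i _ => h1 i), ← sum_mul, sum_u]
      have : ∑ p, t (π.symm p) = 0 := by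
        rw [← ht0]
        exact Equiv.sum_comp π.symm t
      rw [this, zero_mul]
    have h2 : ∀ i, u i h = 0 := by
      intro i; rw [h1, hH, mul_zero]
    have h3 : ∀ p, h p = ∑ p, t p * h (π p) := by
      intro p
      have e := hh (Pi.single p 1)
      have e2 : ∑ p', (Pi.single p 1 : Fin (2 * m) → ZMod 2) p' * h p' = h p := by
        simp [Pi.single_apply]
      have e1 : ∑ p', (Pi.single p 1 : Fin (2 * m) → ZMod 2) p' = 1 := by
        simp [Pi.single_apply]
      simp only [hB, e1, e2, hH, h2, zero_mul, mul_zero, sum_const_zero, add_zero, zero_add,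
        one_mul] at e
      exact z2e _ _ ((add_comm _ _).trans e)
    have h4 : ∑ p, t p * h (π p) = 0 := by
      rw [sum_congr rfl (fun p _ => by rw [h3 (π p)]), ← sum_mul, ht0, zero_mul]
    funext p
    rw [h3 p, h4]; rfl
  have hfin := quad Q B hpol hBadd hnd
  have h5 : W j (fun x => f (fun i => x (π i))) y ^ 2 = (2 ^ m) ^ 2 := by
    have : W j (fun x => f (fun i => x (π i))) y = ∑ x, sg (Q x) := rfl
    rw [this, hfin, Fintype.card_fin, ← pow_mul, mul_comm]
  rcases sq_eq_sq_iff_eq_or_eq_neg.1 h5 with h6 | h6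
  · exact Or.inl h6
  · exact Or.inr h6

end Q9.KB
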