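import Pool.Agent.Q9.KB.E

/-! `2`-bent functions are explicit. -/

namespace Q9.KB

open Finset

variable {m : ℕ}

theorem ip_one (hm : 1 ≤ m) (x y : Fin (2 * m) → ZMod 2) :
    ip 1 x y = ∑ i, x i * y i + u ⟨0, by omega⟩ y * u ⟨0, by omega⟩ x := by
  rw [ip_eq]
  have h : ∀ i : Fin m, (if (i : ℕ) < 1 then u i y else 0) * u i x =
      if i = ⟨0, by omega⟩ then u ⟨0, by omega⟩ y * u ⟨0, by omega⟩ x else 0 := by
    intro i
    by_cases hi : i = ⟨0, by omega⟩
    · subst hi; simp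
    · have : ¬ ((i : ℕ) < 1) := by
        intro h; apply hi; ext; simp; omega
      simp [hi, this]
  simp_rw [h]
  rw [sum_ite_eq']
  have : q (fun i : Fin m => if i = ⟨0, by omega⟩ then
      u ⟨0, by omega⟩ y * u ⟨0, by omega⟩ x else 0) = 0 := by
    unfold q
    refine sum_eq_zero fun i _ => sum_eq_zero fun j _ => ?_
    by_cases hij : i < j
    · have : j ≠ ⟨0, by omega⟩ := by
        intro hj
        rw [Fin.lt_def, hj] at hij
        exact absurd hij (by simp)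
      simp [this]
    · simp [hij]
  rw [this]
  simp

theorem ip_two (hm : 2 ≤ m) (x y : Fin (2 * m) → ZMod 2)
    (h0 : u ⟨0, by omega⟩ y = 1) (h1 : u ⟨1, by omega⟩ y = 1) :
    ip 2 x y = ∑ i, x i * y i + (u ⟨0, by omega⟩ x + u ⟨1, by omega⟩ x +
      u ⟨0, by omega⟩ x * u ⟨1, by omega⟩ x) := by
  rw [ip_eq]
  have h : ∀ i : Fin m, (if (i : ℕ) < 2 then u i y else 0) * u i x =
      (if i = ⟨0, by omega⟩ then u ⟨0, by omega⟩ x else 0) +
      (if i = ⟨1, by omega⟩ then u ⟨1, by omega⟩ x else 0) := by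
    intro i
    by_cases hi : i = ⟨0, by omega⟩
    · subst hi; simp [h0]
    · by_cases hi1 : i = ⟨1, by omega⟩
      · subst hi1; simp [h1]
      · have : ¬ ((i : ℕ) < 2) := by
          intro h
          have h3 : (i : ℕ) ≠ 0 := fun hh => hi (by ext; simpa using hh)
          have h4 : (i : ℕ) ≠ 1 := fun hh => hi1 (by ext; simpa using hh)
          omega
        simp [hi, hi1, this]
  simp_rw [h]
  have hq : q (fun i : Fin m => (if i = ⟨0, by omega⟩ then u ⟨0, by omega⟩ x else 0) +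
      (if i = ⟨1, by omega⟩ then u ⟨1, by omega⟩ x else 0)) =
      u ⟨0, by omega⟩ x * u ⟨1, by omega⟩ x := by
    unfold q
    rw [Fintype.sum_eq_single ⟨0, by omega⟩, Fintype.sum_eq_single ⟨1, by omega⟩]
    · simp [Fin.lt_def]
    · intro j hj
      by_cases h3 : j = ⟨0, by omega⟩
      · subst h3; simp
      · simp [h3, hj]
    · intro i hi
      refine sum_eq_zero fun j _ => ?_
      by_cases hi1 : i = ⟨1, by omega⟩
      · subst hi1
        by_cases hij : (⟨1, by omega⟩ : Fin m) < j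
        · have h3 : j ≠ ⟨0, by omega⟩ := by
            intro hj
            rw [Fin.lt_def, hj] at hij
            exact absurd hij (by simp)
          have h4 : j ≠ ⟨1, by omega⟩ := by
            intro hj
            rw [hj] at hij
            exact absurd hij (lt_irrefl _)
          simp [h3, h4]
        · simp [hij]
      · simp [hi, hi1]
  rw [hq, sum_add_distrib, sum_ite_eq', sum_ite_eq']
  simp only [mem_univ, if_true]
  ring

/-- the vector of the `i`-th pair -/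
def U (i : Fin m) : Fin (2 * m) → ZMod 2 :=
  Pi.single ⟨2 * i, by omega⟩ 1 + Pi.single ⟨2 * i + 1, by omega⟩ 1

theorem dot_U (i : Fin m) (x : Fin (2 * m) → ZMod 2) : ∑ p, x p * U i p = u i x := by
  simp [U, Pi.single_apply, mul_add, sum_add_distrib, u]

theorem u_U (i j : Fin m) : u i (U j) = 0 := by
  unfold u U
  simp only [Pi.add_apply, Pi.single_apply, Fin.mk.injEq]
  by_cases hi : (i : ℕ) = j
  · rw [hi]; simp; decide
  · have h1 : ¬ (2 * (i : ℕ) = 2 * j) := by omega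
    have h2 : ¬ (2 * (i : ℕ) = 2 * j + 1) := by omega
    have h3 : ¬ (2 * (i : ℕ) + 1 = 2 * j) := by omega
    have h4 : ¬ (2 * (i : ℕ) + 1 = 2 * j + 1) := by omega
    simp [h1, h2, h3, hi]

theorem W_one (hm : 1 ≤ m) (f : (Fin (2 * m) → ZMod 2) → ZMod 2) (y : Fin (2 * m) → ZMod 2) :
    W 1 f y = Wh f (y + u ⟨0, by omega⟩ y • U ⟨0, by omega⟩) := by
  unfold W Wh
  refine sum_congr rfl fun x _ => ?_
  congr 2
  rw [ip_one hm]
  simp only [Pi.add_apply, Pi.smul_apply, smul_eq_mul, mul_add, sum_add_distrib]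
  congr 1
  rw [← dot_U, ← dot_U, mul_sum]
  exact sum_congr rfl fun p _ => by ring

theorem bent_of (hm : 1 ≤ m) (f : (Fin (2 * m) → ZMod 2) → ZMod 2) (k : ℕ) (hk : 1 ≤ k)
    (hf : KBent k f) (y : Fin (2 * m) → ZMod 2) : Wh f y = 2 ^ m ∨ Wh f y = -2 ^ m := by
  have h := hf 1 1 le_rfl hk (y + u ⟨0, by omega⟩ y • U ⟨0, by omega⟩)
  have h1 : (fun x => f (fun i => x ((1 : Equiv.Perm (Fin (2 * m))) i))) = f := rfl
  rw [h1, W_one hm] at h
  have h2 : u (⟨0, by omega⟩ : Fin m) (y + u (⟨0, by omega⟩ : Fin m) y • U (⟨0, by omega⟩ : Fin m)) =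
      u (⟨0, by omega⟩ : Fin m) y := by
    rw [u_add]
    have : u (⟨0, by omega⟩ : Fin m) (u (⟨0, by omega⟩ : Fin m) y • U (⟨0, by omega⟩ : Fin m)) =
        u (⟨0, by omega⟩ : Fin m) y * u (⟨0, by omega⟩ : Fin m) (U (⟨0, by omega⟩ : Fin m)) := by
      simp only [u, Pi.smul_apply, smul_eq_mul]; ring
    rw [this, u_U, mul_zero, add_zero]
  rw [h2, add_assoc, ← two_smul ℕ] at h
  have h3 : (2 : ℕ) • (u (⟨0, by omega⟩ : Fin m) y • U (⟨0, by omega⟩ : Fin m)) = 0 := by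
    rw [two_smul]
    funext p
    exact z2 _
  rw [h3, add_zero] at h
  exact h

theorem sg4 : ∀ a b : ZMod 2, 2 * sg (a + b + a * b) = sg (a + b) + sg a + sg b - 1 := by
  decide

theorem sg5 : ∀ a b c d : ZMod 2, (sg a + sg b + sg c - sg d = 2 ∨ sg a + sg b + sg c - sg d = -2) →
    a + b + c + d = 0 := by decide

theorem W_two (hm : 2 ≤ m) (f : (Fin (2 * m) → ZMod 2) → ZMod 2) (y : Fin (2 * m) → ZMod 2)
    (h0 : u ⟨0, by omega⟩ y = 1) (h1 : u ⟨1, by omega⟩ y = 1) :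
    2 * W 2 f y = Wh f (y + U ⟨0, by omega⟩ + U ⟨1, by omega⟩) + Wh f (y + U ⟨0, by omega⟩) +
      Wh f (y + U ⟨1, by omega⟩) - Wh f y := by
  unfold W Wh
  rw [mul_sum, ← sum_add_distrib, ← sum_add_distrib, ← sum_sub_distrib]
  refine sum_congr rfl fun x _ => ?_
  rw [ip_two hm x y h0 h1]
  simp only [Pi.add_apply, mul_add, sum_add_distrib, dot_U]
  rw [← add_assoc, sg_add]
  have := sg4 (u ⟨0, by omega⟩ x) (u ⟨1, by omega⟩ x)
  calc 2 * (sg (f x + ∑ i, x i * y i) * sg (u ⟨0, by omega⟩ x + u ⟨1, by omega⟩ x +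
        u ⟨0, by omega⟩ x * u ⟨1, by omega⟩ x))
      = sg (f x + ∑ i, x i * y i) * (2 * sg (u ⟨0, by omega⟩ x + u ⟨1, by omega⟩ x +
        u ⟨0, by omega⟩ x * u ⟨1, by omega⟩ x)) := by ring
    _ = _ := by
      rw [this]
      simp only [sg_add]
      ring

theorem Wh_perm (f : (Fin (2 * m) → ZMod 2) → ZMod 2) (π : Equiv.Perm (Fin (2 * m)))
    (y : Fin (2 * m) → ZMod 2) :
    Wh (fun x => f (fun i => x (π i))) y = Wh f (fun i => y (π i)) := by
  unfold Wh
  rw [← Equiv.sum_comp (Equiv.arrowCongr π.symm (Equiv.refl (ZMod 2)))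
    (fun x => sg (f x + ∑ i, x i * y (π i)))]
  refine sum_congr rfl fun x _ => ?_
  congr 2
  exact (Equiv.sum_comp π (fun i => x i * y i)).symm

/-- the second difference condition -/
theorem second (hm : 2 ≤ m) (f : (Fin (2 * m) → ZMod 2) → ZMod 2) (k : ℕ) (hk : 2 ≤ k)
    (hf : KBent k f) (g : (Fin (2 * m) → ZMod 2) → ZMod 2)
    (hg : ∀ y, Wh f y = 2 ^ m * sg (g y)) (a b c d : Fin (2 * m))
    (hab : a ≠ b) (hac : a ≠ c) (had : a ≠ d) (hbc : b ≠ c) (hbd : b ≠ d) (hcd : c ≠ d)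
    (z : Fin (2 * m) → ZMod 2) (h1 : z a + z b = 1) (h2 : z c + z d = 1) :
    g (z + (Pi.single a 1 + Pi.single b 1) + (Pi.single c 1 + Pi.single d 1)) +
      g (z + (Pi.single a 1 + Pi.single b 1)) + g (z + (Pi.single c 1 + Pi.single d 1)) + g z =
      0 := by
  obtain ⟨π, hπ⟩ : ∃ π : Equiv.Perm (Fin (2 * m)), π a = ⟨0, by omega⟩ ∧ π b = ⟨1, by omega⟩ ∧
      π c = ⟨2, by omega⟩ ∧ π d = ⟨3, by omega⟩ := by
    have h : Function.Injective (![a, b, c, d] : Fin 4 → Fin (2 * m)) := by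
      intro i j hij
      fin_cases i <;> fin_cases j <;> simp_all
    have h' : Function.Injective (fun i : Fin 4 => (⟨i, by omega⟩ : Fin (2 * m))) := by
      intro i j hij
      simpa [Fin.ext_iff] using hij
    obtain ⟨π, hπ⟩ := (Equiv.Perm.isMultiplyPretransitive (Fin (2 * m)) 4).exists_smul_eq
      ⟨_, h⟩ ⟨_, h'⟩
    have h3 : ∀ i : Fin 4, π ((![a, b, c, d] : Fin 4 → Fin (2 * m)) i) = ⟨i, by omega⟩ :=
      fun i => DFunLike.congr_fun hπ i
    exact ⟨π, h3 0, h3 1, h3 2, h3 3⟩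
  obtain ⟨ha, hb, hc, hd⟩ := hπ
  set y : Fin (2 * m) → ZMod 2 := fun i => z (π.symm i) with hy
  have ha' : π.symm ⟨0, by omega⟩ = a := by rw [← ha]; simp
  have hb' : π.symm ⟨1, by omega⟩ = b := by rw [← hb]; simp
  have hc' : π.symm ⟨2, by omega⟩ = c := by rw [← hc]; simp
  have hd' : π.symm ⟨3, by omega⟩ = d := by rw [← hd]; simp
  have hy0 : u ⟨0, by omega⟩ y = 1 := by
    simp only [u, hy]
    exact (congrArg₂ (· + ·) (congrArg z ha') (congrArg z hb')).trans h1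
  have hy1 : u ⟨1, by omega⟩ y = 1 := by
    simp only [u, hy]
    exact (congrArg₂ (· + ·) (congrArg z hc') (congrArg z hd')).trans h2
  have hW := W_two hm (fun x => f (fun i => x (π i))) y hy0 hy1
  rw [Wh_perm, Wh_perm, Wh_perm, Wh_perm, hg, hg, hg, hg] at hW
  have hU0 : ∀ i, U (⟨0, by omega⟩ : Fin m) (π i) =
      (Pi.single a 1 + Pi.single b 1 : Fin (2 * m) → ZMod 2) i := by
    intro i
    simp only [U, Pi.add_apply, Pi.single_apply]
    have e1 : (π i = ⟨0, by omega⟩) ↔ i = a := by rw [← ha]; exact π.injective.eq_iff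
    have e2 : (π i = ⟨1, by omega⟩) ↔ i = b := by rw [← hb]; exact π.injective.eq_iff
    have e3 : (π i = ⟨2 * 0, by omega⟩) ↔ i = a := e1
    have e4 : (π i = ⟨2 * 0 + 1, by omega⟩) ↔ i = b := e2
    simp only [e3, e4]
  have hU1 : ∀ i, U (⟨1, by omega⟩ : Fin m) (π i) =
      (Pi.single c 1 + Pi.single d 1 : Fin (2 * m) → ZMod 2) i := by
    intro i
    simp only [U, Pi.add_apply, Pi.single_apply]
    have e1 : (π i = ⟨2, by omega⟩) ↔ i = c := by rw [← hc]; exact π.injective.eq_iff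
    have e2 : (π i = ⟨3, by omega⟩) ↔ i = d := by rw [← hd]; exact π.injective.eq_iff
    have e3 : (π i = ⟨2 * 1, by omega⟩) ↔ i = c := e1
    have e4 : (π i = ⟨2 * 1 + 1, by omega⟩) ↔ i = d := e2
    simp only [e3, e4]
  have e0 : (fun i => y (π i)) = z := by funext i; simp [hy]
  have e1 : (fun i => (y + U (⟨0, by omega⟩ : Fin m) : Fin (2 * m) → ZMod 2) (π i)) = z + (Pi.single a 1 + Pi.single b 1) := by
    funext i
    rw [Pi.add_apply, hU0]; simp [hy]
  have e2 : (fun i => (y + U (⟨1, by omega⟩ : Fin m) : Fin (2 * m) → ZMod 2) (π i)) = z + (Pi.single c 1 + Pi.single d 1) := by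
    funext i
    rw [Pi.add_apply, hU1]; simp [hy]
  have e3 : (fun i => (y + U (⟨0, by omega⟩ : Fin m) + U (⟨1, by omega⟩ : Fin m) :
      Fin (2 * m) → ZMod 2) (π i)) =
      z + (Pi.single a 1 + Pi.single b 1) + (Pi.single c 1 + Pi.single d 1) := by
    funext i
    rw [Pi.add_apply, Pi.add_apply, hU1, hU0]; simp [hy]
  rw [e0, e1, e2, e3] at hW
  apply sg5
  have h3 := hf π 2 (by norm_num) hk y
  have h4 : (2 : ℤ) ^ m ≠ 0 := by positivity
  rcases h3 with h3 | h3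
  · left
    apply mul_left_cancel₀ h4
    rw [h3] at hW
    linear_combination -hW
  · right
    apply mul_left_cancel₀ h4
    rw [h3] at hW
    linear_combination -hW

end Q9.KB
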