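import Pool.Agent.Q9.KB.F

/-! Every `2`-bent function is explicit; the theorem. -/

namespace Q9.KB

open Finset

variable {m : ℕ}

/-- indicator -/
def ind {ι : Type*} [DecidableEq ι] (S : Finset ι) : ι → ZMod 2 := fun j => if j ∈ S then 1 else 0

theorem ind_insert {ι : Type*} [DecidableEq ι] (S : Finset ι) (a : ι) (h : a ∉ S) :
    ind (insert a S) = ind S + Pi.single a 1 := by
  funext j
  unfold ind
  by_cases hj : j = a
  · subst hj; simp [h]
  · simp [hj]

theorem ss {ι : Type*} (v : ι → ZMod 2) : v + v = 0 := by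
  funext j; exact z2 _

theorem slice (hm : 2 ≤ m) (f : (Fin (2 * m) → ZMod 2) → ZMod 2) (k : ℕ) (hk : 2 ≤ k)
    (hf : KBent k f) (g : (Fin (2 * m) → ZMod 2) → ZMod 2)
    (hg : ∀ y, Wh f y = 2 ^ m * sg (g y)) (w : ℕ) (hw : 1 ≤ w) (hw2 : w + 2 ≤ 2 * m) :
    ∃ (c : ZMod 2) (r : Fin (2 * m) → ZMod 2), ∀ y, N y = w → g y = c + ∑ j, r j * y j := by
  obtain ⟨c, r, h⟩ := aff (fun S : Finset (Fin (2 * m)) => g (ind S)) w hw (by simpa using hw2) (by
    intro Z a b c d ha hb hc hd hab hac had hbc hbd hcd _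
    have h1 := second hm f k hk hf g hg a b c d hab hac had hbc hbd hcd (ind (insert a (insert c Z)))
      (by simp [ind, hab.symm, hbc, hb]) (by simp [ind, hcd.symm, had.symm, hd])
    have e0 : ind (insert a (insert c Z)) = ind Z + Pi.single c 1 + Pi.single a 1 := by
      rw [ind_insert _ _ (by simp [hac, ha]), ind_insert _ _ hc]
    have e1 : ind (insert b (insert c Z)) = ind Z + Pi.single c 1 + Pi.single b 1 := by
      rw [ind_insert _ _ (by simp [hbc, hb]), ind_insert _ _ hc]
    have e2 : ind (insert a (insert d Z)) = ind Z + Pi.single d 1 + Pi.single a 1 := by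
      rw [ind_insert _ _ (by simp [had, ha]), ind_insert _ _ hd]
    have e3 : ind (insert b (insert d Z)) = ind Z + Pi.single d 1 + Pi.single b 1 := by
      rw [ind_insert _ _ (by simp [hbd, hb]), ind_insert _ _ hd]
    have f1 : ind (insert a (insert c Z)) + (Pi.single a 1 + Pi.single b 1) =
        ind (insert b (insert c Z)) := by
      rw [e0, e1]
      have := ss (Pi.single a 1 : Fin (2 * m) → ZMod 2)
      linear_combination (exp := 1) this
    have f2 : ind (insert a (insert c Z)) + (Pi.single c 1 + Pi.single d 1) =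
        ind (insert a (insert d Z)) := by
      rw [e0, e2]
      have := ss (Pi.single c 1 : Fin (2 * m) → ZMod 2)
      linear_combination (exp := 1) this
    have f3 : ind (insert a (insert c Z)) + (Pi.single a 1 + Pi.single b 1) +
        (Pi.single c 1 + Pi.single d 1) = ind (insert b (insert d Z)) := by
      rw [f1, e1, e3]
      have := ss (Pi.single c 1 : Fin (2 * m) → ZMod 2)
      linear_combination (exp := 1) this
    rw [f1] at f3
    rw [f1, f2, f3] at h1
    generalize g (ind (insert a (insert c Z))) = p1 at *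
    generalize g (ind (insert b (insert c Z))) = p2 at *
    generalize g (ind (insert a (insert d Z))) = p3 at *
    generalize g (ind (insert b (insert d Z))) = p4 at *
    clear * - h1
    revert h1; revert p1 p2 p3 p4; decide)
  refine ⟨c, r, fun y hy => ?_⟩
  have hy1 : y = ind (univ.filter fun j => y j = 1) := by
    funext j
    unfold ind
    rcases z2c (y j) with h | h <;> simp [h]
  have h2 := h (univ.filter fun j => y j = 1) (by rw [← hy, N, card_filter])
  rw [← hy1] at h2
  rw [h2, sum_filter]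
  congr 1
  refine sum_congr rfl fun j _ => ?_
  rcases z2c (y j) with h | h <;> simp [h]

theorem fin_calc : ∀ T ρ C C' qy v s : ZMod 2, s = ρ →
    C + (qy + ρ * s + v) = qy + s * T + T + ((1 + ρ) * T + ρ * s + v + (C + C') * s) +
      ((1 + ρ) * C + ρ * C') := by decide

theorem fin_calc' : ∀ T ρ C C' qy v s : ZMod 2, s = ρ + 1 →
    C' + (qy + ρ * s + (v + T)) = qy + s * T + T + ((1 + ρ) * T + ρ * s + v + (C + C') * s) +
      ((1 + ρ) * C + ρ * C') := by decide

theorem forward (hm : 2 ≤ m) (f : (Fin (2 * m) → ZMod 2) → ZMod 2) (k : ℕ) (hk : 2 ≤ k)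
    (hf : KBent k f) : Explicit f := by
  classical
  have hb := bent_of (by omega) f k (by omega) hf
  set g : (Fin (2 * m) → ZMod 2) → ZMod 2 := fun y => if Wh f y = 2 ^ m then 0 else 1 with hgdef
  have hg : ∀ y, Wh f y = 2 ^ m * sg (g y) := by
    intro y
    by_cases h : Wh f y = 2 ^ m
    · simp [hgdef, h, sg_zero]
    · have h1 : Wh f y = -2 ^ m := (hb y).resolve_left h
      simp only [hgdef, if_neg h, sg_one]
      rw [h1]; ring
  obtain ⟨c0, r0, hs0⟩ := slice hm f k hk hf g hg m (by omega) (by omega)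
  obtain ⟨c1, r1, hs1⟩ := slice hm f k hk hf g hg (m - 1) (by omega) (by omega)
  obtain ⟨hρ, hE, hO⟩ := main m hm (by simp) f g hg c0 c1 r0 r1 hs0
    (fun y hy => hs1 y (by omega))
  set R : Finset (Fin (2 * m)) := univ.filter fun j => r0 j ≠ r1 j with hR
  have ht : ∀ j, r0 j + r1 j = if j ∈ R then 1 else 0 := by
    intro j
    simp only [hR, mem_filter, mem_univ, true_and]
    generalize r0 j = a
    generalize r1 j = b
    revert a b; decide
  set ρ := ∑ j, r0 j with hρd
  have hρ1 : ∑ j, r1 j = ρ := (z2e _ _ hρ)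
  refine ⟨R, fun j => (1 + ρ) * (r0 j + r1 j) + ρ + r0 j + ((c0 + q r0) + (c1 + q r1)),
    (1 + ρ) * (c0 + q r0) + ρ * (c1 + q r1), ?_, ?_⟩
  · rw [← ZMod.natCast_eq_zero_iff_even, ← hρ, ← sum_add_distrib]
    simp_rw [ht]
    rw [sum_boole]
    congr 2
    ext j; simp
  · intro y
    rw [qR R (fun j => r0 j + r1 j) y ht]
    set T := ∑ j, (r0 j + r1 j) * y j with hT
    set s := ∑ j, y j with hs
    have ha : ∑ j, ((1 + ρ) * (r0 j + r1 j) + ρ + r0 j + ((c0 + q r0) + (c1 + q r1))) * y j =
        (1 + ρ) * T + ρ * s + ∑ j, r0 j * y j + ((c0 + q r0) + (c1 + q r1)) * s := by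
      rw [hT, hs, mul_sum, mul_sum, mul_sum, ← sum_add_distrib, ← sum_add_distrib,
        ← sum_add_distrib]
      exact sum_congr rfl fun j _ => by ring
    rw [ha]
    rcases z2c (ρ + s) with h | h
    · have h1 := hE (r0 + y) (by simpa [sum_add_distrib, ← hρd, ← hs] using h)
      rw [← add_assoc, ss, zero_add, q_add, ← hρd, ← hs] at h1
      rw [h1, ← fin_calc T ρ (c0 + q r0) (c1 + q r1) (q y) (∑ j, r0 j * y j) s (z2e _ _ h)]
      ring
    · have h1 := hO (r1 + y) (by simpa [sum_add_distrib, hρ1, ← hs] using h)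
      rw [← add_assoc, ss, zero_add, q_add, hρ1, ← hs] at h1
      have h2 : ∑ j, r1 j * y j = ∑ j, r0 j * y j + T := by
        rw [hT, ← sum_add_distrib]
        refine sum_congr rfl fun j _ => ?_
        have := z2 (r0 j * y j)
        linear_combination -this
      have h3 : s = ρ + 1 := by
        have := z2 ρ
        linear_combination h - this
      rw [h1, h2, ← fin_calc' T ρ (c0 + q r0) (c1 + q r1) (q y) (∑ j, r0 j * y j) s h3]
      ring

/-- `n = 2` -/
theorem two_var (f : (Fin (2 * 1) → ZMod 2) → ZMod 2) (hf : KBent 1 f) : Explicit f := by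
  have h := bent_of le_rfl f 1 le_rfl hf 0
  have h1 : Wh f 0 = sg (f ![0, 0]) + sg (f ![0, 1]) + (sg (f ![1, 0]) + sg (f ![1, 1])) := by
    unfold Wh
    simp only [Pi.zero_apply, mul_zero, sum_const_zero, add_zero]
    rw [← (finTwoArrowEquiv (ZMod 2)).symm.sum_comp, Fintype.sum_prod_type]
    have e : ∀ φ : ZMod 2 → ℤ, ∑ x, φ x = φ 0 + φ 1 := fun φ => Fin.sum_univ_two φ
    rw [e, e, e]
    rfl
  rw [h1] at h
  have h2 : ∀ a b c d : ZMod 2, (sg a + sg b + (sg c + sg d) = 2 ^ 1 ∨
      sg a + sg b + (sg c + sg d) = -2 ^ 1) → a + b + c + d = 1 := by decide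
  have h3 := h2 _ _ _ _ h
  refine ⟨∅, ![f ![1, 0] + f ![0, 0], f ![0, 1] + f ![0, 0]], f ![0, 0], by simp, ?_⟩
  intro x
  have hx : x = ![x 0, x 1] := by
    funext i; fin_cases i <;> rfl
  rw [hx]
  generalize x 0 = p
  generalize x 1 = r
  simp only [notMem_empty, iff_self, and_true]
  rw [Fin.sum_univ_two, Fin.sum_univ_two, Fin.sum_univ_two, Fin.sum_univ_two]
  simp only [Matrix.cons_val_zero, Matrix.cons_val_one, lt_self_iff_false, if_false,
    Fin.lt_def]
  generalize hA : f ![0, 0] = A at *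
  generalize hB : f ![0, 1] = B at *
  generalize hC : f ![1, 0] = C at *
  generalize hD : f ![1, 1] = D at *
  rcases z2c p with rfl | rfl <;> rcases z2c r with rfl | rfl
  · rw [hA]; simp
  · rw [hB]; simp [z2, add_assoc]
  · rw [hC]; simp [z2, add_assoc]
  · rw [hD]
    have : ∀ A B C D : ZMod 2, A + B + C + D = 1 → D = 1 + ((C + A) + (B + A)) + A := by decide
    simpa using this _ _ _ _ h3

/-- main theorem -/
theorem classification (m : ℕ) (hm : 1 ≤ m) (f : (Fin (2 * m) → ZMod 2) → ZMod 2) :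
    (KBent m f ↔ Explicit f) ∧ ∀ k, 2 ≤ k → k ≤ m → (KBent k f ↔ Explicit f) := by
  refine ⟨⟨fun h => ?_, fun h => back f h m⟩, fun k hk hkm =>
    ⟨fun h => forward (by omega) f k hk h, fun h => back f h k⟩⟩
  rcases hm.eq_or_lt with h1 | h1
  · subst h1; exact two_var f h
  · exact forward (by omega) f m (by omega) h

end Q9.KB
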